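import Pool.Agent.K1H14.KS.Defs

/-!
# Abelian varieties of spin type, in linear algebra

`T` is a complex quadratic space of odd dimension, `W Q = C⁺(T)` its even Clifford algebra, with the
group `Spin(T)` acting by left multiplication.  This is `V_ℓ(A)` (with complex coefficients) for an
abelian variety `A` of Kuga-Satake type.  The `n`-linear forms on `W Q` are the classes in
`H¹(A)^{⊗ n}`, a summand of the cohomology of the powers of `A`.
-/

namespace Pool.Agent.K1H14.SD

open Pool.Agent.K1H14.KS CliffordAlgebra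

variable {T : Type*} [AddCommGroup T] [Module ℂ T]

/-- The `n`-linear forms on `W Q = C⁺(T)`. -/
abbrev WForm (Q : QuadraticForm ℂ T) (n : ℕ) : Type _ :=
  MultilinearMap ℂ (fun _ : Fin n => W Q) ℂ

/-- The Tate classes: the forms invariant under `Spin(T)` (under its points and its Lie algebra). -/
def IsTate {Q : QuadraticForm ℂ T} {n : ℕ} (f : WForm Q n) : Prop :=
  (∀ (x : W Q) (t : T →ₗ[ℂ] T), IsSpinPair x t → Fixes (LinearMap.mulLeft ℂ x) f) ∧
    ∀ (x : W Q) (Y : T →ₗ[ℂ] T), IsLiePair x Y → Kills (LinearMap.mulLeft ℂ x) f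

/-- `f (J v) = conj (f v)`. -/
def RealFor {Q : QuadraticForm ℂ T} {n : ℕ} (J : W Q → W Q) (f : WForm Q n) : Prop :=
  ∀ v : Fin n → W Q, f (fun i => J (v i)) = (starRingEnd ℂ) (f v)

/-- What is known about the real spans `R n` of the algebraic classes modulo numerical equivalence:
they are Tate classes; they form real structures (of the complex spaces they span); the bilinear
forms `μ(w* w')` (the classes of divisors and endomorphisms) are complex combinations of
elements of `R 2`; and the `R n` are all the invariants of the group of the linear and antilinear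
automorphisms of `W Q` which respect them (the category of numerical motives generated by `A` is
semisimple and Tannakian). -/
def IsRealMotivic {Q : QuadraticForm ℂ T} (R : ∀ n : ℕ, Submodule ℝ (WForm Q n)) : Prop :=
  (∀ n, ∀ f ∈ R n, IsTate f) ∧
  (∀ n, ∀ f ∈ R n, Complex.I • f ∈ R n → f = 0) ∧
  (∀ μ : CliffordAlgebra Q →ₗ[ℂ] ℂ, ∃ f ∈ R 2, ∃ g ∈ R 2, ∀ v : Fin 2 → W Q,
    f v + Complex.I * g v = μ (reverse (v 0 : CliffordAlgebra Q) * (v 1 : CliffordAlgebra Q))) ∧
  (∀ (n : ℕ) (f : WForm Q n),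
    (∀ g : W Q ≃ₗ[ℂ] W Q, (∀ m, ∀ f' ∈ R m, Fixes (g : W Q →ₗ[ℂ] W Q) f') →
      Fixes (g : W Q →ₗ[ℂ] W Q) f) →
    (∀ J : W Q ≃ₛₗ[starRingEnd ℂ] W Q, (∀ m, ∀ f' ∈ R m, RealFor J f') → RealFor J f) →
    f ∈ R n)

/-- What is known about the complex spans `A n` of a class of motivic classes (algebraic classes, or
Hodge classes): they are Tate classes; the bilinear forms `μ(w* w')` are in `A 2`; and the `A n` are
all the invariants of the group which fixes them. -/
def IsMotivicW {Q : QuadraticForm ℂ T} (A : ∀ n : ℕ, Submodule ℂ (WForm Q n)) : Prop :=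
  (∀ n, ∀ f ∈ A n, IsTate f) ∧
  (∀ μ : CliffordAlgebra Q →ₗ[ℂ] ℂ, ∃ f ∈ A 2, ∀ v : Fin 2 → W Q,
    f v = μ (reverse (v 0 : CliffordAlgebra Q) * (v 1 : CliffordAlgebra Q))) ∧
  (∀ (n : ℕ) (f : WForm Q n),
    (∀ g : W Q ≃ₗ[ℂ] W Q, (∀ m, ∀ f' ∈ A m, Fixes (g : W Q →ₗ[ℂ] W Q) f') →
      Fixes (g : W Q →ₗ[ℂ] W Q) f) → f ∈ A n)

/-- `x` is skew, and, if `dim T` is three modulo four, it is the product of a vector and of a
central element of the Clifford algebra. -/
def IsTest {Q : QuadraticForm ℂ T} (x : W Q) : Prop :=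
  reverse (x : CliffordAlgebra Q) = -(x : CliffordAlgebra Q) ∧
    (Module.finrank ℂ T % 4 = 3 → ∃ (v : T) (z : CliffordAlgebra Q),
      (∀ t : T, z * ι Q t = ι Q t * z) ∧ (x : CliffordAlgebra Q) = ι Q v * z)

/-- The square of the form `f` for the bilinear form with the dual bases `b`, `b'`:
`∑ f(b_{a 1}, …, b_{a n}) f(b'_{a 1}, …, b'_{a n})`. -/
noncomputable def square {Q : QuadraticForm ℂ T} {m : ℕ} (b b' : Fin m → W Q) {n : ℕ}
    (f : WForm Q n) : ℂ :=
  ∑ a : Fin n → Fin m, f (fun i => b (a i)) * f (fun i => b' (a i))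

end Pool.Agent.K1H14.SD
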