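import Pool.Agent.K1H14.SD.Stm
import Pool.Agent.K1H14.SD.Defs

/-!
# Assembly, part 1: positivity from a compact real structure
-/

namespace Pool.Agent.K1H14.SD

open Pool.Agent.K1H14.KS CliffordAlgebra

open scoped symmDiff

universe u

section pos

variable {A : Type u} [Ring A] [Algebra ℂ A] {d : ℕ} {M : Finset (Fin d) → A} {st : A →ₗ[ℂ] A}
  {tr : A →ₗ[ℂ] ℂ}

lemma st_one (hE : EvenCl M st) : st 1 = 1 := by
  have h := hE.st_M ∅ (by simp)
  rw [hE.one] at h
  simpa using h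

lemma M_mul_st (hE : EvenCl M st) {K : Finset (Fin d)} (hK : Even K.card) :
    M K * st (M K) = 1 := by
  have h1 := hE.st_M K hK
  have h2 := hE.st_inv K hK
  rw [h1, smul_mul_assoc] at h2
  rw [h1, mul_smul_comm]
  exact h2

lemma inv_comm [FiniteDimensional ℂ A] {a a' : A} (h : a * a' = 1) : a' * a = 1 := by
  have hinj : Function.Injective (LinearMap.mulLeft ℂ a') := by
    rw [injective_iff_map_eq_zero]
    intro x hx
    rw [LinearMap.mulLeft_apply] at hx
    rw [← one_mul x, ← h, mul_assoc, hx, mul_zero]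
  obtain ⟨t, ht⟩ := LinearMap.surjective_of_injective hinj 1
  rw [LinearMap.mulLeft_apply] at ht
  have h1 : a = t := by
    rw [← mul_one a, ← ht, ← mul_assoc, h, one_mul]
  rw [h1]; exact ht

lemma nondeg (hAVG : S_AVG.{u}) (hE : EvenCl M st) (htr : IsTr M tr) {u : A}
    (h : ∀ x, tr (x * u) = 0) : u = 0 := by
  rw [(hAVG M st tr hE htr).2 u]
  exact Finset.sum_eq_zero (fun K _ => by rw [h, zero_smul])

lemma nondeg' (hAVG : S_AVG.{u}) (hE : EvenCl M st) (htr : IsTr M tr) {u u' : A}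
    (h : ∀ x, tr (x * u) = tr (x * u')) : u = u' := by
  rw [← sub_eq_zero]
  apply nondeg hAVG hE htr
  intro x
  rw [mul_sub, map_sub, h, sub_self]

lemma Pos.ne {z : ℂ} (h : Pos z) : z ≠ 0 := by
  obtain ⟨r, hr, rfl⟩ := h
  exact_mod_cast hr.ne'

lemma Pos.mul {z w : ℂ} (h : Pos z) (h' : Pos w) : Pos (z * w) := by
  obtain ⟨r, hr, rfl⟩ := h
  obtain ⟨s, hs, rfl⟩ := h'
  exact ⟨r * s, mul_pos hr hs, by push_cast; rfl⟩

lemma Pos.inv {z : ℂ} (h : Pos z) : Pos z⁻¹ := by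
  obtain ⟨r, hr, rfl⟩ := h
  exact ⟨r⁻¹, inv_pos.mpr hr, by push_cast; rfl⟩

lemma Pos.pow {z : ℂ} (h : Pos z) (k : ℕ) : Pos (z ^ k) := by
  obtain ⟨r, hr, rfl⟩ := h
  exact ⟨r ^ k, pow_pos hr k, by push_cast; rfl⟩

/-- the situation: a system of real spaces of forms on `A`, real for the antilinear map
`w ↦ c w * y` -/
structure Sys (M : Finset (Fin d) → A) (st : A →ₗ[ℂ] A) (tr : A →ₗ[ℂ] ℂ)
    (R : ∀ n : ℕ, Submodule ℝ (MultilinearMap ℂ (fun _ : Fin n => A) ℂ)) (c : A → A) (y y' : A) :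
    Prop where
  hE : EvenCl M st
  htr : IsTr M tr
  hc : IsCj M st c
  yy' : y * y' = 1
  y'y : y' * y = 1
  fix : ∀ n, ∀ f ∈ R n, ∀ K : Finset (Fin d), Even K.card → Fixes (LinearMap.mulLeft ℂ (M K)) f
  neg : ∀ n, ∀ f ∈ R n, ∀ v : Fin n → A, f (fun i => - v i) = f v
  comb : ∀ μ : A →ₗ[ℂ] ℂ, ∃ f ∈ R 2, ∃ g ∈ R 2, ∀ v : Fin 2 → A,
    f v + Complex.I * g v = μ (st (v 0) * v 1)
  real : ∀ n, ∀ f ∈ R n, ∀ v : Fin n → A, f (fun i => c (v i) * y) = (starRingEnd ℂ) (f v)

variable {R : ∀ n : ℕ, Submodule ℝ (MultilinearMap ℂ (fun _ : Fin n => A) ℂ)} {c : A → A}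
  {y y' : A}

lemma Sys.real_of_mem (hAVG : S_AVG.{u}) (hHER : S_HER.{u}) (S : Sys M st tr R c y y')
    {f : MultilinearMap ℂ (fun _ : Fin 2 => A) ℂ} (hf : f ∈ R 2) {u : A}
    (hu : ∀ v : Fin 2 → A, f v = tr (st (v 0) * v 1 * u)) : y * u * st y = c u := by
  apply nondeg' hAVG S.hE S.htr
  intro x
  obtain ⟨hcc, htc, -, -⟩ := hHER M st tr c S.hE S.htr S.hc
  have h1 := S.real 2 f hf ![1, c x]
  rw [hu, hu] at h1
  simp only [Matrix.cons_val_zero, Matrix.cons_val_one] at h1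
  rw [S.hc.1.one, one_mul, hcc, st_one S.hE, one_mul, ← htc, S.hc.1.mul, hcc] at h1
  rw [← h1, S.htr.2 (st y * (x * y)) u, S.htr.2 x]
  rw [show u * (st y * (x * y)) = (u * st y * x) * y by simp only [mul_assoc], S.htr.2 _ y]
  simp only [mul_assoc]

lemma Sys.decomp (hAVG : S_AVG.{u}) (hHER : S_HER.{u}) (hTWO : S_TWO.{u})
    (S : Sys M st tr R c y y') (u : A) : ∃ u₁ u₂ : A, u = u₁ + Complex.I • u₂ ∧
      (y * u₁ * st y = c u₁ ∧ ∃ f ∈ R 2, ∀ v : Fin 2 → A, f v = tr (st (v 0) * v 1 * u₁)) ∧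
      y * u₂ * st y = c u₂ := by
  obtain ⟨f, hf, g, hg, hfg⟩ := S.comb (tr ∘ₗ LinearMap.mulRight ℂ u)
  obtain ⟨u₁, hu₁⟩ := hTWO M st tr S.hE S.htr f (S.fix 2 f hf)
  obtain ⟨u₂, hu₂⟩ := hTWO M st tr S.hE S.htr g (S.fix 2 g hg)
  refine ⟨u₁, u₂, ?_, ⟨S.real_of_mem hAVG hHER hf hu₁, f, hf, hu₁⟩,
    S.real_of_mem hAVG hHER hg hu₂⟩
  apply nondeg' hAVG S.hE S.htr
  intro x
  have h1 := hfg ![1, x]
  rw [hu₁, hu₂] at h1
  simp only [Matrix.cons_val_zero, Matrix.cons_val_one, LinearMap.comp_apply,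
    LinearMap.mulRight_apply] at h1
  rw [st_one S.hE, one_mul] at h1
  rw [← h1, mul_add, map_add, mul_smul_comm, map_smul, smul_eq_mul]

lemma cadd (hc : AntiAut st c) (x x' : A) : c (x + x') = c x + c x' := hc.add x x'

lemma c_zero (hc : AntiAut st c) : c 0 = 0 := by
  have h := hc.smul 0 0
  simpa using h

lemma c_I (hc : AntiAut st c) (x : A) : c (Complex.I • x) = -(Complex.I • c x) := by
  rw [hc.smul, Complex.conj_I, neg_smul]

lemma Sys.mem_of_real (hAVG : S_AVG.{u}) (hHER : S_HER.{u}) (hTWO : S_TWO.{u})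
    (S : Sys M st tr R c y y') {u : A} (hu : y * u * st y = c u) :
    ∃ f ∈ R 2, ∀ v : Fin 2 → A, f v = tr (st (v 0) * v 1 * u) := by
  obtain ⟨u₁, u₂, h1, ⟨h2, f, hf, hfu⟩, h3⟩ := S.decomp hAVG hHER hTWO u
  have h4 : u₂ = 0 := by
    have h5 : y * u * st y = c u₁ + Complex.I • c u₂ := by
      rw [h1, mul_add, add_mul, h2, mul_smul_comm, smul_mul_assoc, h3]
    have h6 : c u = c u₁ - Complex.I • c u₂ := by
      rw [h1, S.hc.1.add, c_I S.hc.1, sub_eq_add_neg]
    rw [h5, h6, sub_eq_add_neg] at hu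
    have h7 : Complex.I • c u₂ = -(Complex.I • c u₂) := add_left_cancel hu
    have h8 : (2 : ℂ) • (Complex.I • c u₂) = 0 := by
      rw [two_smul]
      nth_rewrite 1 [h7]
      exact neg_add_cancel _
    have h9 : c u₂ = 0 := by
      rcases smul_eq_zero.mp h8 with h | h
      · norm_num at h
      · exact (smul_eq_zero.mp h).resolve_left Complex.I_ne_zero
    apply S.hc.1.bij.1
    rw [h9, c_zero S.hc.1]
  rw [h4, smul_zero, add_zero] at h1
  exact ⟨f, hf, by rw [h1]; exact hfu⟩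

/-- `c y * y` is `± 1` -/
lemma Sys.exists_z (hAVG : S_AVG.{u}) (hHER : S_HER.{u}) (hTWO : S_TWO.{u}) (hTR : S_TR.{u})
    (S : Sys M st tr R c y y') : ∃ z : ℂ, c y * y = z • (1 : A) ∧ z * z = 1 := by
  obtain ⟨hcc, htc, -, -⟩ := hHER M st tr c S.hE S.htr S.hc
  have hfd := (hTR M st S.hE).1
  set q := c y * y with hq
  have hreal : ∀ u, y * u * st y = c u → q * u * st q = u := by
    intro u hu
    have h1 := congrArg c hu
    rw [S.hc.1.mul, S.hc.1.mul, hcc, ← hu, S.hc.1.st] at h1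
    calc q * u * st q = c y * (y * u * st y) * st (c y) := by
          rw [hq, S.hE.st_mul]
          simp only [mul_assoc]
      _ = u := h1
  have hall : ∀ u, q * u * st q = u := by
    intro u
    obtain ⟨u₁, u₂, h1, ⟨h2, -⟩, h3⟩ := S.decomp hAVG hHER hTWO u
    rw [h1, mul_add, add_mul, hreal u₁ h2, mul_smul_comm, smul_mul_assoc, hreal u₂ h3]
  have h1 : q * st q = 1 := by
    have := hall 1
    rwa [mul_one] at this
  have h2 : st q * q = 1 := inv_comm h1
  have h3 : ∀ u, q * u = u * q := by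
    intro u
    have h := congrArg (fun t => t * q) (hall u)
    simp only [mul_assoc] at h
    rw [h2, mul_one] at h
    exact h
  have h4 := (hAVG M st tr S.hE S.htr).1 q
  have h5 : ∑ K ∈ evs d, M K * q * st (M K) = ((evs d).card : ℂ) • q := by
    rw [Finset.sum_congr rfl (g := fun _ => q)]
    · rw [Finset.sum_const, ← Nat.cast_smul_eq_nsmul ℂ]
    · intro K hK
      have hK' : Even K.card := by simpa [evs] using hK
      rw [← h3, mul_assoc, M_mul_st S.hE hK', mul_one]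
  have hne : ((evs d).card : ℂ) ≠ 0 := by
    rw [Nat.cast_ne_zero, Finset.card_ne_zero]
    exact ⟨∅, by simp [evs]⟩
  refine ⟨((evs d).card : ℂ)⁻¹ * (2 ^ (d - 1) * tr q), ?_, ?_⟩
  · rw [mul_smul, ← h4, h5, smul_smul, inv_mul_cancel₀ hne, one_smul]
  · have h6 : q = (((evs d).card : ℂ)⁻¹ * (2 ^ (d - 1) * tr q)) • (1 : A) := by
      rw [mul_smul, ← h4, h5, smul_smul, inv_mul_cancel₀ hne, one_smul]
    generalize ((evs d).card : ℂ)⁻¹ * (2 ^ (d - 1) * tr q) = z at h6 ⊢
    rw [h6, map_smul, st_one S.hE, smul_mul_smul_comm, mul_one] at h1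
    have h7 : (z * z - 1) • (1 : A) = 0 := by
      rw [sub_smul, h1, one_smul, sub_self]
    rcases smul_eq_zero.mp h7 with h | h
    · exact sub_eq_zero.mp h
    · exact absurd h S.hE.ne

/-- positivity in all degrees -/
theorem Sys.main (hTR : S_TR.{u}) (hAVG : S_AVG.{u}) (hHER : S_HER.{u}) (hTWO : S_TWO.{u})
    (hKPOS : S_KPOS.{u}) (hPI : S_PI.{u}) (hPAIR : S_PAIR.{u}) (hFIN : S_FIN.{u})
    (S : Sys M st tr R c y y')
    {ψ : MultilinearMap ℂ (fun _ : Fin 2 => A) ℂ} (hψ : ψ ∈ R 2) (hψa : ∀ w, ψ ![w, w] = 0)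
    {m : ℕ} {b b' : Fin m → A} (hb : Submodule.span ℂ (Set.range b) = ⊤)
    (hbb : ∀ i j, ψ ![b i, b' j] = if i = j then 1 else 0)
    (hW : ∀ f ∈ R 2, f ≠ 0 →
      Pos (∑ a : Fin 2 → Fin m, f (fun i => b (a i)) * f (fun i => b' (a i)))) :
    ∀ n, ∀ f ∈ R n, f ≠ 0 →
      Pos (∑ a : Fin n → Fin m, f (fun i => b (a i)) * f (fun i => b' (a i))) := by
  have hfd := (hTR M st S.hE).1
  obtain ⟨hcc, htc, hts, -⟩ := hHER M st tr c S.hE S.htr S.hc
  obtain ⟨u₀, hu₀⟩ := hTWO M st tr S.hE S.htr ψ (S.fix 2 ψ hψ)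
  -- `u₀` is skew
  have hsk : st u₀ = -u₀ := by
    have h1 : ∀ x, tr (x * (u₀ + st u₀)) = 0 := by
      intro x
      have e1 := hψa (1 + x)
      have e2 := hψa 1
      have e3 := hψa x
      rw [hu₀] at e1 e2 e3
      simp only [Matrix.cons_val_zero, Matrix.cons_val_one] at e1 e2 e3
      rw [map_add, st_one S.hE] at e1
      rw [st_one S.hE] at e2
      have e4 : tr (x * u₀) + tr (st x * u₀) = 0 := by
        have : (1 + st x) * (1 + x) * u₀ = 1 * 1 * u₀ + st x * x * u₀ + (x * u₀ + st x * u₀) := by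
          noncomm_ring
        rw [this, map_add, map_add, e2, e3, map_add] at e1
        simpa using e1
      have e5 : tr (st x * u₀) = tr (x * st u₀) := by
        rw [← hts, S.hE.st_mul, S.hE.st_st, S.htr.2]
      rw [mul_add, map_add, ← e5, e4]
    have h2 := nondeg hAVG S.hE S.htr h1
    rw [eq_neg_iff_add_eq_zero, add_comm]
    exact h2
  -- `u₀` is invertible
  obtain ⟨u₀', h01, h10⟩ : ∃ u₀', u₀ * u₀' = 1 ∧ u₀' * u₀ = 1 := by
    have hinj : Function.Injective (LinearMap.mulLeft ℂ u₀) := by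
      rw [injective_iff_map_eq_zero]
      intro x hx
      rw [LinearMap.mulLeft_apply] at hx
      have h1 : ∀ w, ψ ![st x, w] = 0 := by
        intro w
        rw [hu₀]
        simp only [Matrix.cons_val_zero, Matrix.cons_val_one]
        rw [S.hE.st_st, S.htr.2, ← mul_assoc, hx, zero_mul, map_zero]
      have h2 : st x ∈ Submodule.span ℂ (Set.range b) := by rw [hb]; trivial
      rw [Submodule.mem_span_range_iff_exists_fun] at h2
      obtain ⟨a, ha⟩ := h2
      have h3 : ∀ j, a j = 0 := by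
        intro j
        have h4 := h1 (b' j)
        rw [hu₀] at h4
        simp only [Matrix.cons_val_zero, Matrix.cons_val_one] at h4
        rw [← ha, map_sum, Finset.sum_mul, Finset.sum_mul, map_sum] at h4
        rw [Finset.sum_eq_single j] at h4
        · rw [map_smul, smul_mul_assoc, smul_mul_assoc, map_smul] at h4
          have h5 := hbb j j
          rw [hu₀, if_pos rfl] at h5
          simp only [Matrix.cons_val_zero, Matrix.cons_val_one] at h5
          rw [h5, smul_eq_mul, mul_one] at h4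
          exact h4
        · intro i _ hij
          rw [map_smul, smul_mul_assoc, smul_mul_assoc, map_smul]
          have h5 := hbb i j
          rw [hu₀, if_neg hij] at h5
          simp only [Matrix.cons_val_zero, Matrix.cons_val_one] at h5
          rw [h5, smul_zero]
        · intro h; exact absurd (Finset.mem_univ j) h
      have h5 : st x = 0 := by
        rw [← ha]
        exact Finset.sum_eq_zero (fun i _ => by rw [h3, zero_smul])
      rw [← S.hE.st_st x, h5, map_zero]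
    have hsurj := LinearMap.surjective_of_injective hinj
    obtain ⟨u₀', h1⟩ := hsurj 1
    rw [LinearMap.mulLeft_apply] at h1
    refine ⟨u₀', h1, ?_⟩
    apply hinj
    rw [LinearMap.mulLeft_apply, LinearMap.mulLeft_apply, ← mul_assoc, h1, one_mul, mul_one]
  have hr0 := S.real_of_mem hAVG hHER hψ hu₀
  obtain ⟨z, hz, hzz⟩ := S.exists_z hAVG hHER hTWO hTR
  have hbb' : ∀ i j, tr (st (b i) * b' j * u₀) = if i = j then 1 else 0 := by
    intro i j
    have := hbb i j
    rw [hu₀] at this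
    simpa using this
  have h2p : Pos ((2 : ℂ) ^ (d - 1)) := ⟨2 ^ (d - 1), by positivity, by push_cast; rfl⟩
  have hP2 : ∀ u, u ≠ 0 → y * u * st y = c u → Pos (tr (u * u₀' * st u * st u₀')) := by
    intro u hu hr
    obtain ⟨f, hf, hfu⟩ := S.mem_of_real hAVG hHER hTWO hr
    have hf0 : f ≠ 0 := by
      rintro rfl
      apply hu
      apply nondeg hAVG S.hE S.htr
      intro x
      have h1 := hfu ![1, x]
      simp only [zero_apply, Matrix.cons_val_zero, Matrix.cons_val_one] at h1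
      rw [st_one S.hE, one_mul] at h1
      exact h1.symm
    have h1 := hW f hf hf0
    simp only [hfu] at h1
    rw [hPAIR M st tr u₀ u₀' m b b' S.hE S.htr h01 h10 hb hbb' u] at h1
    have h3 := h2p.inv.mul h1
    rwa [← mul_assoc, inv_mul_cancel₀ h2p.ne, one_mul] at h3
  have h4 := hPI M st tr c y y' u₀ u₀' z S.hE S.htr S.hc S.yy' S.y'y h01 h10 hsk hr0 hz hzz hP2
  have hk1 : (y * u₀) * (u₀' * y') = 1 := by
    rw [mul_assoc, ← mul_assoc u₀, h01, one_mul, S.yy']
  have hk2 : (u₀' * y') * (y * u₀) = 1 := by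
    rw [mul_assoc, ← mul_assoc y', S.y'y, one_mul, h10]
  obtain ⟨θ, hθ⟩ := hKPOS M st tr c (y * u₀) (u₀' * y') S.hE S.htr S.hc hk1 hk2 h4
  have hθ' : ∀ v, v ≠ 0 → Pos (θ * ψ ![v, c v * y]) := by
    intro v hv
    have h := hθ v hv
    rw [hu₀]
    simp only [Matrix.cons_val_zero, Matrix.cons_val_one]
    rw [show st v * (c v * y) * u₀ = st v * c v * (y * u₀) by simp only [mul_assoc]]
    exact h
  have hJa : ∀ x x', c (x + x') * y = c x * y + c x' * y := by
    intro x x'; rw [S.hc.1.add, add_mul]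
  have hJs : ∀ (a : ℂ) x, c (a • x) * y = (starRingEnd ℂ) a • (c x * y) := by
    intro a x; rw [S.hc.1.smul, smul_mul_assoc]
  have hJb : Function.Bijective (fun x => c x * y) := by
    constructor
    · intro x x' h
      have h' : c x * y = c x' * y := h
      apply S.hc.1.bij.1
      calc c x = c x * y * y' := by rw [mul_assoc, S.yy', mul_one]
        _ = c x' * y * y' := by rw [h']
        _ = c x' := by rw [mul_assoc, S.yy', mul_one]
    · intro x
      obtain ⟨t, ht⟩ := S.hc.1.bij.2 (x * y')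
      exact ⟨t, by show c t * y = x; rw [ht, mul_assoc, S.y'y, mul_one]⟩
  have hfin : ∀ n, ∀ f ∈ R n, f ≠ 0 → ∃ r : ℝ, 0 < r ∧
      ∑ a : Fin n → Fin m, f (fun i => b (a i)) * f (fun i => b' (a i)) = θ ^ n * (r : ℂ) := by
    intro n f hf hf0
    exact hFIN (fun x => c x * y) ψ m b b' θ n f hJa hJs hJb hb hbb hθ' (S.real n f hf) hf0
  have hψ0 : ψ ≠ 0 := by
    rintro rfl
    have h1 := hu₀ ![1, u₀']
    simp only [zero_apply, Matrix.cons_val_zero, Matrix.cons_val_one] at h1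
    rw [st_one S.hE, one_mul, h10] at h1
    have h2 := S.htr.1 ∅ (by simp)
    rw [if_pos rfl, S.hE.one] at h2
    rw [h2] at h1
    exact one_ne_zero h1.symm
  have hθ2 : Pos (θ ^ 2) := by
    obtain ⟨r, hr, h1⟩ := hfin 2 ψ hψ hψ0
    have h2 := hW ψ hψ hψ0
    rw [h1] at h2
    have h3 : Pos (r : ℂ) := ⟨r, hr, rfl⟩
    have h5 := h2.mul h3.inv
    rwa [mul_assoc, mul_inv_cancel₀ h3.ne, mul_one] at h5
  intro n f hf hf0
  rcases Nat.even_or_odd n with hn | hn
  · obtain ⟨k, hk⟩ := hn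
    obtain ⟨r, hr, h1⟩ := hfin n f hf hf0
    rw [h1, hk, ← two_mul, pow_mul]
    exact (hθ2.pow k).mul ⟨r, hr, rfl⟩
  · exfalso
    apply hf0
    ext v
    have h1 := S.neg n f hf v
    have h2 : f (fun i => (-1 : ℂ) • v i) = (∏ _i : Fin n, (-1 : ℂ)) • f v :=
      f.map_smul_univ (fun _ => -1) v
    simp only [neg_smul, one_smul] at h2
    rw [h1, Finset.prod_const, Finset.card_univ, Fintype.card_fin, hn.neg_one_pow, smul_eq_mul] at h2
    have h3 : (2 : ℂ) * f v = 0 := by linear_combination h2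
    simpa using h3

end pos

end Pool.Agent.K1H14.SD
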