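import Pool.Agent.K1H14.SD.Asm1

/-!
# Assembly, part 2: the compact real structure
-/

namespace Pool.Agent.K1H14.SD

open Pool.Agent.K1H14.KS CliffordAlgebra

open scoped symmDiff

universe u

variable {T : Type u} [AddCommGroup T] [Module ℂ T] {Q : QuadraticForm ℂ T}
  {R : ∀ n : ℕ, Submodule ℝ (WForm Q n)}

lemma exists_J (hR : IsRealMotivic R) {n : ℕ} {f : WForm Q n} (hf : f ∈ R n) (hf0 : f ≠ 0) :
    ∃ J : W Q ≃ₛₗ[starRingEnd ℂ] W Q, ∀ m, ∀ f' ∈ R m, RealFor J f' := by
  by_contra hcon
  push Not at hcon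
  apply hf0
  apply hR.2.1 n f hf
  apply hR.2.2.2
  · intro g hg v
    show Complex.I • f _ = Complex.I • f v
    rw [hg n f hf v]
  · intro J hJ
    obtain ⟨m, f', hf', h⟩ := hcon J
    exact absurd (hJ m f' hf') h

lemma rv_coe (x : W Q) : ((rv Q x : W Q) : CliffordAlgebra Q) = reverse (x : CliffordAlgebra Q) :=
  rfl

lemma comb_of (hR : IsRealMotivic R) (μ : W Q →ₗ[ℂ] ℂ) : ∃ f ∈ R 2, ∃ g ∈ R 2,
    ∀ v : Fin 2 → W Q, f v + Complex.I * g v = μ (rv Q (v 0) * v 1) := by
  obtain ⟨μ', hμ'⟩ := LinearMap.exists_extend (p := (CliffordAlgebra.even Q).toSubmodule) μ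
  obtain ⟨f, hf, g, hg, h⟩ := hR.2.2.1 μ'
  refine ⟨f, hf, g, hg, fun v => ?_⟩
  rw [h v]
  have h1 := LinearMap.congr_fun hμ' (rv Q (v 0) * v 1)
  rw [← h1]
  rfl

lemma fix_neg (hR : IsRealMotivic R) {n : ℕ} {f : WForm Q n} (hf : f ∈ R n) (v : Fin n → W Q) :
    f (fun i => - v i) = f v := by
  have h1 : IsSpinPair (-1 : W Q) (LinearMap.id : T →ₗ[ℂ] T) := by
    constructor
    · show reverse (((-1 : W Q)) : CliffordAlgebra Q) * (((-1 : W Q)) : CliffordAlgebra Q) = 1
      have : (((-1 : W Q)) : CliffordAlgebra Q) = -1 := by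
        rw [NegMemClass.coe_neg, OneMemClass.coe_one]
      rw [this, map_neg, reverse.map_one]; noncomm_ring
    · intro v
      have : (((-1 : W Q)) : CliffordAlgebra Q) = -1 := by
        rw [NegMemClass.coe_neg, OneMemClass.coe_one]
      rw [this, map_neg, reverse.map_one]
      simp
  have h2 := (hR.1 n f hf).1 _ _ h1 v
  simpa using h2

/-- the Lie algebra of all elements which kill the classes -/
def LieR (R : ∀ n : ℕ, Submodule ℝ (WForm Q n)) : Submodule ℂ (W Q) where
  carrier := {x | ∀ n, ∀ f ∈ R n, Kills (LinearMap.mulLeft ℂ x) f}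
  add_mem' := by
    intro x x' hx hx' n f hf
    have : LinearMap.mulLeft ℂ (x + x') = LinearMap.mulLeft ℂ x + LinearMap.mulLeft ℂ x' := by
      ext w; simp [add_mul]
    rw [this]
    exact (hx n f hf).add (hx' n f hf)
  zero_mem' := by
    intro n f hf v
    refine Finset.sum_eq_zero (fun i _ => ?_)
    rw [LinearMap.mulLeft_apply, zero_mul]
    exact f.map_update_zero v i
  smul_mem' := by
    intro a x hx n f hf
    have : LinearMap.mulLeft ℂ (a • x) = a • LinearMap.mulLeft ℂ x := by
      ext w; simp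
    rw [this]
    exact (hx n f hf).smul a

lemma mem_LieR {x : W Q} : x ∈ LieR R ↔ ∀ n, ∀ f ∈ R n, Kills (LinearMap.mulLeft ℂ x) f := Iff.rfl

lemma LieR_bracket {x x' : W Q} (hx : x ∈ LieR R) (hx' : x' ∈ LieR R) :
    x * x' - x' * x ∈ LieR R := by
  intro n f hf
  have : LinearMap.mulLeft ℂ (x * x' - x' * x) =
      LinearMap.mulLeft ℂ x ∘ₗ LinearMap.mulLeft ℂ x' -
        LinearMap.mulLeft ℂ x' ∘ₗ LinearMap.mulLeft ℂ x := by
    ext w; simp [sub_mul, mul_assoc]
  rw [this]
  exact (hx n f hf).bracket (hx' n f hf)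

lemma LieR_skew (hR : IsRealMotivic R) {x : W Q} (hx : x ∈ LieR R) : rv Q x = -x := by
  have h0 : rv Q x + x = 0 := by
    rw [← Module.forall_dual_apply_eq_zero_iff ℂ]
    intro μ
    obtain ⟨f, hf, g, hg, h⟩ := comb_of hR μ
    have h1 := hx 2 f hf ![1, 1]
    have h2 := hx 2 g hg ![1, 1]
    rw [Fin.sum_univ_two] at h1 h2
    have e0 : Function.update ![(1 : W Q), 1] 0 (LinearMap.mulLeft ℂ x (![1, 1] 0)) = ![x, 1] := by
      ext i; fin_cases i <;> simp
    have e1 : Function.update ![(1 : W Q), 1] 1 (LinearMap.mulLeft ℂ x (![1, 1] 1)) = ![1, x] := by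
      ext i; fin_cases i <;> simp
    rw [e0, e1] at h1 h2
    have h3 := h ![x, 1]
    have h4 := h ![1, x]
    simp only [Matrix.cons_val_zero, Matrix.cons_val_one] at h3 h4
    have e2 : rv Q (1 : W Q) = 1 := by
      apply Subtype.ext
      rw [rv_coe, OneMemClass.coe_one, reverse.map_one]
    rw [e2, one_mul] at h4
    rw [mul_one] at h3
    rw [map_add, ← h3, ← h4]
    linear_combination h1 + Complex.I * h2
  exact eq_neg_of_add_eq_zero_left h0

section

variable {d : ℕ} {M : Finset (Fin d) → W Q} {tr : W Q →ₗ[ℂ] ℂ} {J α : W Q → W Q} {y y' s : W Q}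

/-- the compact real structure -/
lemma toSys (hR : IsRealMotivic R) (hE : EvenCl M (rv Q)) (htr : IsTr M tr)
    (hspin : ∀ K : Finset (Fin d), Even K.card → ∃ t : T →ₗ[ℂ] T, IsSpinPair (M K) t)
    (hJ : ∀ m, ∀ f' ∈ R m, RealFor J f') (hα : AntiAut (rv Q) α) (hyy' : y * y' = 1)
    (hy'y : y' * y = 1) (hJα : ∀ w, J w = α w * y) (hs : rv Q s * s = 1) (hs' : s * rv Q s = 1)
    (hsM : ∀ K : Finset (Fin d), Even K.card → α (M K) * s = s * M K)
    (hfix : ∀ n, ∀ f ∈ R n, Fixes (LinearMap.mulLeft ℂ s) f) :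
    Sys M (rv Q) tr R (fun x => rv Q s * α x * s) (rv Q s * y) (y' * s) where
  hE := hE
  htr := htr
  hc := by
    refine ⟨⟨?_, ?_, ?_, ?_, ?_, ?_⟩, ?_⟩
    · intro x x'; simp only [hα.add, mul_add, add_mul]
    · intro a x; simp only [hα.smul, mul_smul_comm, smul_mul_assoc]
    · intro x x'
      show rv Q s * α (x * x') * s = rv Q s * α x * s * (rv Q s * α x' * s)
      rw [hα.mul]
      calc rv Q s * (α x * α x') * s = rv Q s * α x * (s * rv Q s) * α x' * s := by
            rw [hs']; simp only [mul_assoc, one_mul]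
        _ = _ := by simp only [mul_assoc]
    · show rv Q s * α 1 * s = 1
      rw [hα.one, mul_one, hs]
    · constructor
      · intro x x' h
        have h' : rv Q s * α x * s = rv Q s * α x' * s := h
        apply hα.bij.1
        calc α x = (s * rv Q s) * α x * (s * rv Q s) := by rw [hs', one_mul, mul_one]
          _ = s * (rv Q s * α x * s) * rv Q s := by simp only [mul_assoc]
          _ = s * (rv Q s * α x' * s) * rv Q s := by rw [h']
          _ = (s * rv Q s) * α x' * (s * rv Q s) := by simp only [mul_assoc]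
          _ = α x' := by rw [hs', one_mul, mul_one]
      · intro x
        obtain ⟨t, ht⟩ := hα.bij.2 (s * x * rv Q s)
        refine ⟨t, ?_⟩
        show rv Q s * α t * s = x
        rw [ht]
        calc rv Q s * (s * x * rv Q s) * s = (rv Q s * s) * x * (rv Q s * s) := by
              simp only [mul_assoc]
          _ = x := by rw [hs, one_mul, mul_one]
    · intro x
      show rv Q s * α (rv Q x) * s = rv Q (rv Q s * α x * s)
      rw [hE.st_mul, hE.st_mul, hE.st_st, hα.st]
      simp only [mul_assoc]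
    · intro K hK
      show rv Q s * α (M K) * s = M K
      rw [mul_assoc, hsM K hK, ← mul_assoc, hs, one_mul]
  yy' := by
    calc rv Q s * y * (y' * s) = rv Q s * (y * y') * s := by simp only [mul_assoc]
      _ = 1 := by rw [hyy', mul_one, hs]
  y'y := by
    calc y' * s * (rv Q s * y) = y' * (s * rv Q s) * y := by simp only [mul_assoc]
      _ = 1 := by rw [hs', mul_one, hy'y]
  fix := by
    intro n f hf K hK
    obtain ⟨t, ht⟩ := hspin K hK
    exact (hR.1 n f hf).1 _ t ht
  neg := fun n f hf v => fix_neg hR hf v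
  comb := fun μ => comb_of hR μ
  real := by
    intro n f hf v
    rw [← hJ n f hf v]
    have h1 := hfix n f hf (fun i => rv Q s * α (v i) * s * (rv Q s * y))
    rw [← h1]
    congr 1
    funext i
    rw [LinearMap.mulLeft_apply, hJα]
    calc s * (rv Q s * α (v i) * s * (rv Q s * y)) =
          (s * rv Q s) * α (v i) * (s * rv Q s) * y := by simp only [mul_assoc]
      _ = α (v i) * y := by rw [hs', one_mul, mul_one]

end

/-- the map `α` preserves the Lie algebra -/
lemma LieR_alpha {J : W Q ≃ₛₗ[starRingEnd ℂ] W Q} {α : W Q → W Q} {y : W Q}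
    (hJ : ∀ m, ∀ f' ∈ R m, RealFor J f') (hα : AntiAut (rv Q) α) (hJα : ∀ w, J w = α w * y)
    (x : W Q) : x ∈ LieR R ↔ α x ∈ LieR R := by
  have key : ∀ x w, J (x * w) = α x * J w := by
    intro x w; rw [hJα, hJα, hα.mul, mul_assoc]
  have key2 : ∀ (n : ℕ) (f : WForm Q n), f ∈ R n → ∀ w : Fin n → W Q,
      ∑ i, f (Function.update (fun j => J (w j)) i (α x * J (w i))) =
        (starRingEnd ℂ) (∑ i, f (Function.update w i (x * w i))) := by
    intro n f hf w
    rw [map_sum]
    refine Finset.sum_congr rfl (fun i _ => ?_)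
    rw [← hJ n f hf]
    congr 1
    funext j
    by_cases h : j = i
    · subst h; rw [Function.update_self, Function.update_self, key]
    · rw [Function.update_of_ne h, Function.update_of_ne h]
  constructor
  · intro hx n f hf v
    have h1 := key2 n f hf (fun j => J.symm (v j))
    have h2 := hx n f hf (fun j => J.symm (v j))
    simp only [LinearMap.mulLeft_apply] at h2
    rw [h2, map_zero] at h1
    simp only [LinearEquiv.apply_symm_apply] at h1
    exact h1
  · intro hx n f hf w
    have h1 := key2 n f hf w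
    have h2 := hx n f hf (fun j => J (w j))
    simp only [LinearMap.mulLeft_apply] at h2
    rw [h2] at h1
    have h3 : (starRingEnd ℂ) (∑ i, f (Function.update w i (x * w i))) = 0 := h1.symm
    exact (map_eq_zero (starRingEnd ℂ)).mp h3

end Pool.Agent.K1H14.SD
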