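import Pool.Agent.K1H14.SD.Stm

/-!
# Project SD: interface, part 2 (the case where all skew elements kill the classes)
-/

namespace Pool.Agent.K1H14.SD

open Pool.Agent.K1H14.KS CliffordAlgebra

open scoped symmDiff

universe u

def S_SIM : Prop := ∀ {A : Type u} [Ring A] [Algebra ℂ A] {d : ℕ} (M : Finset (Fin d) → A)
  (st : A →ₗ[ℂ] A), EvenCl M st → ∃ N : ℕ, Nonempty (A ≃ₐ[ℂ] Matrix (Fin N) (Fin N) ℂ)

def S_INV : Prop := ∀ (N : ℕ) (τ : Matrix (Fin N) (Fin N) ℂ →ₗ[ℂ] Matrix (Fin N) (Fin N) ℂ),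
  (∀ x y, τ (x * y) = τ y * τ x) → (∀ x, τ (τ x) = x) → τ 1 = 1 →
  ∃ B : Matrix (Fin N) (Fin N) ℂ, IsUnit B.det ∧ (B.transpose = B ∨ B.transpose = -B) ∧
    ∀ x, τ x = B⁻¹ * x.transpose * B

def S_SGN : Prop := ∀ {A : Type u} [Ring A] [Algebra ℂ A] {d : ℕ} (M : Finset (Fin d) → A)
  (st : A →ₗ[ℂ] A) (N : ℕ) (φ : A ≃ₐ[ℂ] Matrix (Fin N) (Fin N) ℂ)
  (B : Matrix (Fin N) (Fin N) ℂ), EvenCl M st → (d % 8 = 3 ∨ d % 8 = 5) → IsUnit B.det →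
  (B.transpose = B ∨ B.transpose = -B) → (∀ x, φ (st x) = B⁻¹ * (φ x).transpose * B) →
  B.transpose = -B

def S_TRV : Prop := ∀ (N : ℕ) (B s : Matrix (Fin N) (Fin N) ℂ), B.transpose = -B →
  IsUnit B.det → s.transpose * B * s = B → ∀ H : Submonoid (Matrix (Fin N) (Fin N) ℂ),
  (∀ (v : Fin N → ℂ) (a : ℂ), 1 + a • Matrix.vecMulVec v (Matrix.vecMul v B) ∈ H) → s ∈ H

def S_NIL : Prop := ∀ {V : Type u} [AddCommGroup V] [Module ℂ V] (n : ℕ) (D : V →ₗ[ℂ] V)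
  (f : MultilinearMap ℂ (fun _ : Fin n => V) ℂ), (∀ v, D (D v) = 0) → Kills D f →
  Fixes (LinearMap.id + D) f

def S_LEF : Prop := ∀ {A : Type u} [Ring A] [Algebra ℂ A] {d : ℕ} (M : Finset (Fin d) → A)
  (st : A →ₗ[ℂ] A) (n : ℕ) (f : MultilinearMap ℂ (fun _ : Fin n => A) ℂ) (s : A), EvenCl M st →
  (d % 8 = 3 ∨ d % 8 = 5) → (∀ x : A, st x = -x → Kills (LinearMap.mulLeft ℂ x) f) →
  st s * s = 1 → Fixes (LinearMap.mulLeft ℂ s) f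

end Pool.Agent.K1H14.SD
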