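import Pool.Agent.K1H14.SD.Asm2
import Pool.Agent.K1H14.SD.Stm2

/-!
# Assembly, part 3: the theorem
-/

namespace Pool.Agent.K1H14.SD

open Pool.Agent.K1H14.KS CliffordAlgebra

open scoped symmDiff

universe u

variable {T : Type u} [AddCommGroup T] [Module ℂ T] {Q : QuadraticForm ℂ T}
  {R : ∀ n : ℕ, Submodule ℝ (WForm Q n)}

lemma rv_one : rv Q (1 : W Q) = 1 := by
  apply Subtype.ext
  rw [rv_coe, OneMemClass.coe_one, reverse.map_one]

/-- in the spin case the intertwiner is in the spin group -/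
lemma spin_of (hVEC : S_VEC.{u}) (hLNK3 : S_LNK3.{u}) {d : ℕ} {b : Module.Basis (Fin d) ℂ T}
    (hd : Odd d) (h5 : 5 ≤ d) (hb : ONB Q b) (hE : EvenCl (MM (Q := Q) b) (rv Q))
    {α : W Q → W Q} (hα : AntiAut (rv Q) α)
    (hlev : ∀ x, x ∈ Lev (MM (Q := Q) b) 2 ↔ α x ∈ Lev (MM (Q := Q) b) 2) {s : W Q}
    (hs : rv Q s * s = 1) (hs' : s * rv Q s = 1)
    (hsM : ∀ K : Finset (Fin d), Even K.card → α (MM (Q := Q) b K) * s = s * MM (Q := Q) b K) :
    ∃ t : T →ₗ[ℂ] T, IsSpinPair s t := by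
  have h1 := hVEC (MM (Q := Q) b) (rv Q) α (starRingAut : ℂ ≃+* ℂ) hE h5 hα.add hα.mul hα.one
    (fun a x => hα.smul a x) hα.bij hlev
  apply (hLNK3 Q d b hd hb).1 s hs
  intro x hx
  have hev : Even (d - 1) := by
    obtain ⟨k, hk⟩ := hd
    exact ⟨k, by omega⟩
  refine Submodule.span_induction (p := fun x _ => s * x * rv Q s ∈ Lev (MM (Q := Q) b) (d - 1))
    ?_ ?_ ?_ ?_ hx
  · rintro z ⟨K, hK, rfl⟩
    rw [← hsM K (by rw [hK]; exact hev), mul_assoc, hs', mul_one]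
    exact h1 _ (Submodule.subset_span ⟨K, hK, rfl⟩)
  · rw [mul_zero, zero_mul]; exact Submodule.zero_mem _
  · intro x x' _ _ h h'
    rw [mul_add, add_mul]; exact Submodule.add_mem _ h h'
  · intro a x _ h
    rw [mul_smul_comm, smul_mul_assoc]; exact Submodule.smul_mem _ _ h

/-- the Lie algebra in the spin case -/
lemma lieR_eq (hLIE : S_LIE.{u}) (hLNK2 : S_LNK2.{u}) {d : ℕ} {b : Module.Basis (Fin d) ℂ T}
    (hR : IsRealMotivic R) (hd : Odd d) (hb : ONB Q b) (hE : EvenCl (MM (Q := Q) b) (rv Q))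
    (hx : ∃ x : W Q, rv Q x = -x ∧ (d % 4 = 3 → x ∈ Lev (MM (Q := Q) b) (d - 1)) ∧ x ∉ LieR R) :
    ∀ x, x ∈ LieR R ↔ x ∈ Lev (MM (Q := Q) b) 2 := by
  have h2 : ∀ K : Finset (Fin d), K.card = 2 → MM (Q := Q) b K ∈ LieR R := by
    intro K hK n f hf
    obtain ⟨Y, hY⟩ := (hLNK2 Q d b hd hb).2 K hK
    exact (hR.1 n f hf).2 _ Y hY
  intro x
  constructor
  · exact hLIE (MM (Q := Q) b) (rv Q) (LieR R) hE h2 (fun x hx y hy => LieR_bracket hx hy)
      (fun x hx => LieR_skew hR hx) hx x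
  · intro h
    refine Submodule.span_le.mpr ?_ h
    rintro z ⟨K, hK, rfl⟩
    exact h2 K hK

/-- **the main theorem, with the pieces as hypotheses** -/
theorem hodge_main (hTR : S_TR.{u}) (hAVG : S_AVG.{u}) (hHER : S_HER.{u}) (hTWO : S_TWO.{u})
    (hKPOS : S_KPOS.{u}) (hPI : S_PI.{u}) (hPAIR : S_PAIR.{u}) (hFIN : S_FIN.{u})
    (hINT : S_INT.{u}) (hSTA : S_STA.{u}) (hLIE : S_LIE.{u}) (hVEC : S_VEC.{u})
    (hLNK1 : S_LNK1.{u}) (hLNK2 : S_LNK2.{u}) (hLNK3 : S_LNK3.{u}) (hLEF : S_LEF.{u})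
    (hQ : ∀ t : T, (∀ s : T, QuadraticMap.polar Q s t = 0) → t = 0)
    (hd : Odd (Module.finrank ℂ T)) (h5 : 5 ≤ Module.finrank ℂ T)
    (hR : IsRealMotivic R)
    (hX : Module.finrank ℂ T % 8 = 5 ∨ ∃ (n : ℕ) (f : WForm Q n) (x : W Q), f ∈ R n ∧ IsTest x ∧
      ¬ Kills (LinearMap.mulLeft ℂ x) f)
    {ψ : WForm Q 2} (hψ : ψ ∈ R 2) (hψa : ∀ w, ψ ![w, w] = 0)
    {m : ℕ} {b b' : Fin m → W Q} (hb : Submodule.span ℂ (Set.range b) = ⊤)
    (hbb : ∀ i j, ψ ![b i, b' j] = if i = j then 1 else 0)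
    (hW : ∀ f ∈ R 2, f ≠ 0 → Pos (square b b' f)) :
    ∀ n, ∀ f ∈ R n, f ≠ 0 → Pos (square b b' f) := by
  have hfdT : FiniteDimensional ℂ T := FiniteDimensional.of_finrank_pos (by omega)
  obtain ⟨e, he⟩ := exists_onb (Q := Q) hQ
  have hE := hLNK1 Q _ e hd he
  obtain ⟨hfdW, tr, htr⟩ := hTR _ _ hE
  have hne : (1 : W Q) ≠ 0 := hE.ne
  -- `ψ ≠ 0`
  have hψ0 : ψ ≠ 0 := by
    rintro rfl
    have hm : IsEmpty (Fin m) := by
      by_contra hcon
      rw [not_isEmpty_iff] at hcon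
      obtain ⟨i⟩ := hcon
      have := hbb i i
      rw [if_pos rfl, zero_apply] at this
      exact zero_ne_one this
    rw [Set.range_eq_empty, Submodule.span_empty] at hb
    have : (1 : W Q) ∈ (⊥ : Submodule ℂ (W Q)) := by rw [hb]; trivial
    exact hne ((Submodule.mem_bot ℂ).mp this)
  obtain ⟨J, hJ⟩ := exists_J hR hψ hψ0
  -- the structure of `J`
  obtain ⟨α, y, y', hα, hyy', hy'y, hJα⟩ := hSTA (MM (Q := Q) e) (rv Q) J hE (fun x x' => map_add J x x')
    (fun a x => map_smulₛₗ J a x) J.bijective (by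
      intro μ
      obtain ⟨f, hf, g, hg, h⟩ := comb_of hR μ
      have hfx : ∀ f ∈ R 2, ∀ K : Finset (Fin (Module.finrank ℂ T)), Even K.card →
          Fixes (LinearMap.mulLeft ℂ (MM (Q := Q) e K)) f := by
        intro f hf K hK
        obtain ⟨t, ht⟩ := (hLNK2 Q _ e hd he).1 K hK
        exact (hR.1 2 f hf).1 _ t ht
      obtain ⟨uf, huf⟩ := hTWO _ _ tr hE htr f (hfx f hf)
      obtain ⟨ug, hug⟩ := hTWO _ _ tr hE htr g (hfx g hg)
      refine ⟨tr ∘ₗ LinearMap.mulRight ℂ uf - Complex.I • (tr ∘ₗ LinearMap.mulRight ℂ ug), ?_⟩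
      intro w w'
      have h1 := h ![J w, J w']
      simp only [Matrix.cons_val_zero, Matrix.cons_val_one] at h1
      rw [← h1]
      have h2 := hJ 2 f hf ![w, w']
      have h3 := hJ 2 g hg ![w, w']
      have e1 : (fun i => J ((![w, w'] : Fin 2 → W Q) i)) = ![J w, J w'] := by
        funext i; fin_cases i <;> rfl
      rw [e1] at h2 h3
      rw [h2, h3, map_add, map_mul, Complex.conj_conj, Complex.conj_conj, Complex.conj_I, huf, hug]
      simp only [Matrix.cons_val_zero, Matrix.cons_val_one, LinearMap.sub_apply,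
        LinearMap.smul_apply, LinearMap.comp_apply, LinearMap.mulRight_apply, smul_eq_mul]
      ring)
  obtain ⟨s, hs, hs', hsM⟩ := hINT (MM (Q := Q) e) (rv Q) α hE hα
  -- `s` fixes all the classes
  have hfix : ∀ n, ∀ f ∈ R n, Fixes (LinearMap.mulLeft ℂ s) f := by
    by_cases hcase : ∃ x : W Q, rv Q x = -x ∧
        (Module.finrank ℂ T % 4 = 3 → x ∈ Lev (MM (Q := Q) e) (Module.finrank ℂ T - 1)) ∧ x ∉ LieR R
    · have hlie := lieR_eq hLIE hLNK2 hR hd he hE hcase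
      have hlev : ∀ x, x ∈ Lev (MM (Q := Q) e) 2 ↔ α x ∈ Lev (MM (Q := Q) e) 2 := by
        intro x
        rw [← hlie, ← hlie]
        exact LieR_alpha hJ hα hJα x
      obtain ⟨t, ht⟩ := spin_of hVEC hLNK3 hd h5 he hE hα hlev hs hs' hsM
      exact fun n f hf => (hR.1 n f hf).1 s t ht
    · push Not at hcase
      have h8 : Module.finrank ℂ T % 8 = 5 := by
        rcases hX with h | ⟨n, f, x, hf, ⟨hx1, hx2⟩, hx3⟩
        · exact h
        · exfalso
          apply hx3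
          have h1 : rv Q x = -x := by
            apply Subtype.ext
            rw [rv_coe, hx1, NegMemClass.coe_neg]
          refine hcase x h1 ?_ n f hf
          intro h
          obtain ⟨v, z, hz, hx⟩ := hx2 h
          exact (hLNK3 Q _ e hd he).2 x v z hz hx
      intro n f hf
      refine hLEF (MM (Q := Q) e) (rv Q) n f s hE (Or.inr h8) ?_ hs
      intro x hx
      exact hcase x hx (fun h => absurd h (by omega)) n f hf
  have S := toSys hR hE htr (fun K hK => (hLNK2 Q _ e hd he).1 K hK) hJ hα hyy' hy'y hJα hs hs'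
    hsM hfix
  exact S.main hTR hAVG hHER hTWO hKPOS hPI hPAIR hFIN hψ hψa hb hbb hW

end Pool.Agent.K1H14.SD
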