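import Pool.Agent.K1H14.SD.Stm2

/-!
# Project SD: interface, part 4 (the Lie algebra `so(d+1)`)

`Lev M 2 ⊔ Lev M (d - 1)` is the Lie algebra `so(d + 1)`, `Lev M 0 ⊔ Lev M (d - 1)` its vector
representation (for `d` three modulo four).
-/

namespace Pool.Agent.K1H14.SD

open Pool.Agent.K1H14.KS CliffordAlgebra

open scoped symmDiff

universe u

def S_CMB2 : Prop := ∀ (d : ℕ) (P : Finset (Fin d) → Prop), Odd d →
  (∀ K : Finset (Fin d), K.card = 2 → P K) →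
  (∀ K L : Finset (Fin d), P K → P L → Odd (K ∩ L).card → P (K ∆ L)) →
  (∀ K : Finset (Fin d), P K → K.card % 4 = 2) →
  (∃ K : Finset (Fin d), P K ∧ K.card ≠ 2 ∧ K.card ≠ d - 1) →
  ∀ L : Finset (Fin d), L.card % 4 = 2 → P L

def S_LIE2 : Prop := ∀ {A : Type u} [Ring A] [Algebra ℂ A] {d : ℕ} (M : Finset (Fin d) → A)
  (st : A →ₗ[ℂ] A) (N : Submodule ℂ A), EvenCl M st →
  (∀ K : Finset (Fin d), K.card = 2 → M K ∈ N) → (∀ x ∈ N, ∀ y ∈ N, x * y - y * x ∈ N) →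
  (∀ x ∈ N, st x = -x) → (∃ x : A, st x = -x ∧ x ∉ N) →
  ∀ x ∈ N, x ∈ Lev M 2 ⊔ Lev M (d - 1)

def S_DEC : Prop := ∀ {A : Type u} [Ring A] [Algebra ℂ A] (n : ℕ)
  (f : MultilinearMap ℂ (fun _ : Fin n => A) ℂ) (x : A) (a μ : ℂ), x * x = μ • (1 : A) →
  a * a - μ = 1 → (∀ v : Fin n → A, f (fun i => - v i) = f v) →
  Kills (LinearMap.mulLeft ℂ x) f → Fixes (LinearMap.mulLeft ℂ (a • (1 : A) + x)) f

def S_IOT : Prop := ∀ {A : Type u} [Ring A] [Algebra ℂ A] {d : ℕ} (M : Finset (Fin d) → A)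
  (st : A →ₗ[ℂ] A) (z n : A) (μ : ℂ), EvenCl M st → 5 ≤ d → d ≠ 7 → z ∈ Lev M 2 →
  n ∈ Lev M (d - 1) → (z + n) * (z + n) = μ • (1 : A) → (z - n) * (z - n) = μ • (1 : A)

def S_CLU : Prop := ∀ {A : Type u} [Ring A] [Algebra ℂ A] {d : ℕ} (M : Finset (Fin d) → A)
  (st : A →ₗ[ℂ] A) (m : Fin d → A), EvenCl M st → d % 4 = 3 → (∀ i, st (m i) = - m i) →
  (∀ i j, m i * m j + m j * m i = if i = j then -2 else 0) →
  ∃ (t : A) (σ : ℂ), (σ = 1 ∨ σ = -1) ∧ st t * t = 1 ∧ t * st t = 1 ∧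
    ∀ i, m i * t = σ • (t * M (Finset.univ.erase i))

/-- `t` is the partner of `s` (the action on the other half-spin representation) -/
def Partner {A : Type u} [Ring A] [Algebra ℂ A] {d : ℕ} (M : Finset (Fin d) → A)
    (st : A →ₗ[ℂ] A) (s t : A) : Prop :=
  st t * t = 1 ∧ t * st t = 1 ∧ ∀ z ∈ Lev M 2, ∀ n ∈ Lev M (d - 1), ∀ z' ∈ Lev M 2,
    ∀ n' ∈ Lev M (d - 1), s * (z + n) * st s = z' + n' → t * (z - n) * st t = z' - n'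

def S_TT : Prop := ∀ {A : Type u} [Ring A] [Algebra ℂ A] {d : ℕ} (M : Finset (Fin d) → A)
  (st : A →ₗ[ℂ] A) (s : A), EvenCl M st → d % 4 = 3 → 5 ≤ d → d ≠ 7 → st s * s = 1 →
  s * st s = 1 → (∀ x, x ∈ Lev M 2 ⊔ Lev M (d - 1) → s * x * st s ∈ Lev M 2 ⊔ Lev M (d - 1)) →
  (∀ x, x ∈ Lev M 2 ⊔ Lev M (d - 1) → st s * x * s ∈ Lev M 2 ⊔ Lev M (d - 1)) →
  ∃ t : A, Partner M st s t

def S_VV : Prop := ∀ {A : Type u} [Ring A] [Algebra ℂ A] {d : ℕ} (M : Finset (Fin d) → A)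
  (st : A →ₗ[ℂ] A) (s t : A), EvenCl M st → d % 4 = 3 → 5 ≤ d → st s * s = 1 →
  s * st s = 1 → Partner M st s t →
  (∀ x, x ∈ Lev M 2 ⊔ Lev M (d - 1) → st s * x * s ∈ Lev M 2 ⊔ Lev M (d - 1)) →
  ∀ e ∈ Lev M 0 ⊔ Lev M (d - 1), s * e * st t ∈ Lev M 0 ⊔ Lev M (d - 1)

def S_FINM : Prop := ∀ {A : Type u} [Ring A] [Algebra ℂ A] {d : ℕ} (M : Finset (Fin d) → A)
  (st : A →ₗ[ℂ] A) (s t : A), EvenCl M st → d % 4 = 3 → 5 ≤ d →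
  st s * s = 1 → s * st s = 1 → st t * t = 1 → t * st t = 1 →
  (∀ e ∈ Lev M 0 ⊔ Lev M (d - 1), s * e * st t ∈ Lev M 0 ⊔ Lev M (d - 1)) →
  ∃ v : A, st v * v = 1 ∧ v * st v = 1 ∧
    (∀ x ∈ Lev M (d - 1), (st v * s) * x * st (st v * s) ∈ Lev M (d - 1)) ∧
    ∃ (a μ : ℂ), ∃ x ∈ Lev M (d - 1), v = a • (1 : A) + x ∧ x * x = μ • (1 : A) ∧ a * a - μ = 1

end Pool.Agent.K1H14.SD
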