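import Pool.Agent.K1H14.SD.Asm3
import Pool.Agent.K1H14.SD.Stm4

/-!
# Assembly, part 4: the theorem, with the case `so(d+1)`
-/

namespace Pool.Agent.K1H14.SD

open Pool.Agent.K1H14.KS CliffordAlgebra

open scoped symmDiff

universe u

variable {T : Type u} [AddCommGroup T] [Module ℂ T] {Q : QuadraticForm ℂ T}
  {R : ∀ n : ℕ, Submodule ℝ (WForm Q n)}

lemma Fixes_mul {n : ℕ} {f : WForm Q n} {x x' : W Q} (h : Fixes (LinearMap.mulLeft ℂ x) f)
    (h' : Fixes (LinearMap.mulLeft ℂ x') f) : Fixes (LinearMap.mulLeft ℂ (x * x')) f := by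
  intro v
  have h1 := h (fun i => x' * v i)
  have h2 := h' v
  simp only [LinearMap.mulLeft_apply] at h1 h2 ⊢
  rw [← h2, ← h1]
  simp only [mul_assoc]

/-- in the intermediate case the intertwiner fixes the classes -/
lemma mid_fix (hTT : S_TT.{u}) (hVV : S_VV.{u}) (hFINM : S_FINM.{u}) (hDEC : S_DEC.{u})
    (hLNK3 : S_LNK3.{u}) (hR : IsRealMotivic R) {d : ℕ} {b : Module.Basis (Fin d) ℂ T}
    (hd : Odd d) (h5 : 5 ≤ d) (h7 : d ≠ 7) (h3 : d % 4 = 3) (hb : ONB Q b)
    (hE : EvenCl (MM (Q := Q) b) (rv Q))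
    {α : W Q → W Q} (hα : AntiAut (rv Q) α) (hαL : ∀ x, x ∈ LieR R ↔ α x ∈ LieR R)
    (hL : ∀ x, x ∈ LieR R ↔ x ∈ Lev (MM (Q := Q) b) 2 ⊔ Lev (MM (Q := Q) b) (d - 1))
    {s : W Q} (hs : rv Q s * s = 1) (hs' : s * rv Q s = 1)
    (hsM : ∀ K : Finset (Fin d), Even K.card → α (MM (Q := Q) b K) * s = s * MM (Q := Q) b K) :
    ∀ n, ∀ f ∈ R n, Fixes (LinearMap.mulLeft ℂ s) f := by
  have hev : Even (d - 1) := by
    obtain ⟨k, hk⟩ := hd
    exact ⟨k, by omega⟩
  -- `s` normalises the Lie algebra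
  have hn1 : ∀ x, x ∈ Lev (MM (Q := Q) b) 2 ⊔ Lev (MM (Q := Q) b) (d - 1) →
      s * x * rv Q s ∈ Lev (MM (Q := Q) b) 2 ⊔ Lev (MM (Q := Q) b) (d - 1) := by
    intro x hx
    have key : ∀ K : Finset (Fin d), Even K.card →
        MM (Q := Q) b K ∈ Lev (MM (Q := Q) b) 2 ⊔ Lev (MM (Q := Q) b) (d - 1) →
        s * MM (Q := Q) b K * rv Q s ∈ Lev (MM (Q := Q) b) 2 ⊔ Lev (MM (Q := Q) b) (d - 1) := by
      intro K hK hKL
      rw [← hsM K hK, mul_assoc, hs', mul_one, ← hL, ← hαL, hL]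
      exact hKL
    rw [Submodule.mem_sup] at hx
    obtain ⟨z, hz, n, hn, rfl⟩ := hx
    rw [mul_add, add_mul]
    apply Submodule.add_mem
    · refine Submodule.span_induction (p := fun z _ => s * z * rv Q s ∈
        Lev (MM (Q := Q) b) 2 ⊔ Lev (MM (Q := Q) b) (d - 1)) ?_ ?_ ?_ ?_ hz
      · rintro w ⟨K, hK, rfl⟩
        exact key K (by rw [hK]; decide) (Submodule.mem_sup_left (Submodule.subset_span ⟨K, hK, rfl⟩))
      · rw [mul_zero, zero_mul]; exact Submodule.zero_mem _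
      · intro x x' _ _ h h'
        rw [mul_add, add_mul]; exact Submodule.add_mem _ h h'
      · intro a x _ h
        rw [mul_smul_comm, smul_mul_assoc]; exact Submodule.smul_mem _ _ h
    · refine Submodule.span_induction (p := fun z _ => s * z * rv Q s ∈
        Lev (MM (Q := Q) b) 2 ⊔ Lev (MM (Q := Q) b) (d - 1)) ?_ ?_ ?_ ?_ hn
      · rintro w ⟨K, hK, rfl⟩
        exact key K (by rw [hK]; exact hev)
          (Submodule.mem_sup_right (Submodule.subset_span ⟨K, hK, rfl⟩))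
      · rw [mul_zero, zero_mul]; exact Submodule.zero_mem _
      · intro x x' _ _ h h'
        rw [mul_add, add_mul]; exact Submodule.add_mem _ h h'
      · intro a x _ h
        rw [mul_smul_comm, smul_mul_assoc]; exact Submodule.smul_mem _ _ h
  have hn2 : ∀ x, x ∈ Lev (MM (Q := Q) b) 2 ⊔ Lev (MM (Q := Q) b) (d - 1) →
      rv Q s * x * s ∈ Lev (MM (Q := Q) b) 2 ⊔ Lev (MM (Q := Q) b) (d - 1) := by
    intro x hx
    obtain ⟨x', rfl⟩ := hα.bij.2 x
    rw [← hL, ← hαL, hL] at hx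
    have key : ∀ K : Finset (Fin d), Even K.card →
        rv Q s * α (MM (Q := Q) b K) * s = MM (Q := Q) b K := by
      intro K hK
      rw [mul_assoc, hsM K hK, ← mul_assoc, hs, one_mul]
    have h0 : α 0 = 0 := c_zero hα
    rw [Submodule.mem_sup] at hx
    obtain ⟨z, hz, n, hn, rfl⟩ := hx
    rw [hα.add, mul_add, add_mul]
    apply Submodule.add_mem
    · refine Submodule.span_induction (p := fun z _ => rv Q s * α z * s ∈
        Lev (MM (Q := Q) b) 2 ⊔ Lev (MM (Q := Q) b) (d - 1)) ?_ ?_ ?_ ?_ hz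
      · rintro w ⟨K, hK, rfl⟩
        rw [key K (by rw [hK]; decide)]
        exact Submodule.mem_sup_left (Submodule.subset_span ⟨K, hK, rfl⟩)
      · rw [h0, mul_zero, zero_mul]; exact Submodule.zero_mem _
      · intro x x' _ _ h h'
        rw [hα.add, mul_add, add_mul]; exact Submodule.add_mem _ h h'
      · intro a x _ h
        rw [hα.smul, mul_smul_comm, smul_mul_assoc]; exact Submodule.smul_mem _ _ h
    · refine Submodule.span_induction (p := fun z _ => rv Q s * α z * s ∈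
        Lev (MM (Q := Q) b) 2 ⊔ Lev (MM (Q := Q) b) (d - 1)) ?_ ?_ ?_ ?_ hn
      · rintro w ⟨K, hK, rfl⟩
        rw [key K (by rw [hK]; exact hev)]
        exact Submodule.mem_sup_right (Submodule.subset_span ⟨K, hK, rfl⟩)
      · rw [h0, mul_zero, zero_mul]; exact Submodule.zero_mem _
      · intro x x' _ _ h h'
        rw [hα.add, mul_add, add_mul]; exact Submodule.add_mem _ h h'
      · intro a x _ h
        rw [hα.smul, mul_smul_comm, smul_mul_assoc]; exact Submodule.smul_mem _ _ h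
  obtain ⟨t, ht⟩ := hTT (MM (Q := Q) b) (rv Q) s hE h3 h5 h7 hs hs' hn1 hn2
  have hvv := hVV (MM (Q := Q) b) (rv Q) s t hE h3 h5 hs hs' ht hn2
  obtain ⟨v, hv1, hv2, hv3, a, μ, x, hx, hvx, hxx, haμ⟩ :=
    hFINM (MM (Q := Q) b) (rv Q) s t hE h3 h5 hs hs' ht.1 ht.2.1 hvv
  intro n f hf
  have hfv : Fixes (LinearMap.mulLeft ℂ v) f := by
    rw [hvx]
    refine hDEC n f x a μ hxx haμ (fix_neg hR hf) ?_
    have : x ∈ LieR R := by
      rw [hL]; exact Submodule.mem_sup_right hx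
    exact this n f hf
  have hs1 : rv Q (rv Q v * s) * (rv Q v * s) = 1 := by
    rw [hE.st_mul, hE.st_st]
    calc rv Q s * v * (rv Q v * s) = rv Q s * (v * rv Q v) * s := by simp only [mul_assoc]
      _ = 1 := by rw [hv2, mul_one, hs]
  obtain ⟨t', ht'⟩ := (hLNK3 Q d b hd hb).1 (rv Q v * s) hs1 hv3
  have h4 := Fixes_mul hfv ((hR.1 n f hf).1 _ t' ht')
  have h5 : v * (rv Q v * s) = s := by
    rw [← mul_assoc, hv2, one_mul]
  rwa [h5] at h4

/-- **the main theorem, with the pieces as hypotheses** -/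
theorem hodge_main2 (hTR : S_TR.{u}) (hAVG : S_AVG.{u}) (hHER : S_HER.{u}) (hTWO : S_TWO.{u})
    (hKPOS : S_KPOS.{u}) (hPI : S_PI.{u}) (hPAIR : S_PAIR.{u}) (hFIN : S_FIN.{u})
    (hINT : S_INT.{u}) (hSTA : S_STA.{u}) (hLIE : S_LIE.{u}) (hVEC : S_VEC.{u})
    (hLNK1 : S_LNK1.{u}) (hLNK2 : S_LNK2.{u}) (hLNK3 : S_LNK3.{u}) (hLEF : S_LEF.{u})
    (hLIE2 : S_LIE2.{u}) (hTT : S_TT.{u}) (hVV : S_VV.{u}) (hFINM : S_FINM.{u}) (hDEC : S_DEC.{u})
    (hQ : ∀ t : T, (∀ s : T, QuadraticMap.polar Q s t = 0) → t = 0)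
    (hd : Odd (Module.finrank ℂ T)) (h5 : 5 ≤ Module.finrank ℂ T)
    (hR : IsRealMotivic R)
    (hX : (Module.finrank ℂ T % 8 = 3 ∨ Module.finrank ℂ T % 8 = 5) ∨
      ∃ (n : ℕ) (f : WForm Q n) (x : W Q), f ∈ R n ∧ IsTest x ∧
      ¬ Kills (LinearMap.mulLeft ℂ x) f)
    {ψ : WForm Q 2} (hψ : ψ ∈ R 2) (hψa : ∀ w, ψ ![w, w] = 0)
    {m : ℕ} {b b' : Fin m → W Q} (hb : Submodule.span ℂ (Set.range b) = ⊤)
    (hbb : ∀ i j, ψ ![b i, b' j] = if i = j then 1 else 0)
    (hW : ∀ f ∈ R 2, f ≠ 0 → Pos (square b b' f)) :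
    ∀ n, ∀ f ∈ R n, f ≠ 0 → Pos (square b b' f) := by
  have hfdT : FiniteDimensional ℂ T := FiniteDimensional.of_finrank_pos (by omega)
  obtain ⟨e, he⟩ := exists_onb (Q := Q) hQ
  have hE := hLNK1 Q _ e hd he
  obtain ⟨hfdW, tr, htr⟩ := hTR _ _ hE
  have hne : (1 : W Q) ≠ 0 := hE.ne
  -- `ψ ≠ 0`
  have hψ0 : ψ ≠ 0 := by
    rintro rfl
    have hm : IsEmpty (Fin m) := by
      by_contra hcon
      rw [not_isEmpty_iff] at hcon
      obtain ⟨i⟩ := hcon
      have := hbb i i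
      rw [if_pos rfl, zero_apply] at this
      exact zero_ne_one this
    rw [Set.range_eq_empty, Submodule.span_empty] at hb
    have : (1 : W Q) ∈ (⊥ : Submodule ℂ (W Q)) := by rw [hb]; trivial
    exact hne ((Submodule.mem_bot ℂ).mp this)
  obtain ⟨J, hJ⟩ := exists_J hR hψ hψ0
  -- the structure of `J`
  obtain ⟨α, y, y', hα, hyy', hy'y, hJα⟩ := hSTA (MM (Q := Q) e) (rv Q) J hE (fun x x' => map_add J x x')
    (fun a x => map_smulₛₗ J a x) J.bijective (by
      intro μ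
      obtain ⟨f, hf, g, hg, h⟩ := comb_of hR μ
      have hfx : ∀ f ∈ R 2, ∀ K : Finset (Fin (Module.finrank ℂ T)), Even K.card →
          Fixes (LinearMap.mulLeft ℂ (MM (Q := Q) e K)) f := by
        intro f hf K hK
        obtain ⟨t, ht⟩ := (hLNK2 Q _ e hd he).1 K hK
        exact (hR.1 2 f hf).1 _ t ht
      obtain ⟨uf, huf⟩ := hTWO _ _ tr hE htr f (hfx f hf)
      obtain ⟨ug, hug⟩ := hTWO _ _ tr hE htr g (hfx g hg)
      refine ⟨tr ∘ₗ LinearMap.mulRight ℂ uf - Complex.I • (tr ∘ₗ LinearMap.mulRight ℂ ug), ?_⟩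
      intro w w'
      have h1 := h ![J w, J w']
      simp only [Matrix.cons_val_zero, Matrix.cons_val_one] at h1
      rw [← h1]
      have h2 := hJ 2 f hf ![w, w']
      have h3 := hJ 2 g hg ![w, w']
      have e1 : (fun i => J ((![w, w'] : Fin 2 → W Q) i)) = ![J w, J w'] := by
        funext i; fin_cases i <;> rfl
      rw [e1] at h2 h3
      rw [h2, h3, map_add, map_mul, Complex.conj_conj, Complex.conj_conj, Complex.conj_I, huf, hug]
      simp only [Matrix.cons_val_zero, Matrix.cons_val_one, LinearMap.sub_apply,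
        LinearMap.smul_apply, LinearMap.comp_apply, LinearMap.mulRight_apply, smul_eq_mul]
      ring)
  obtain ⟨s, hs, hs', hsM⟩ := hINT (MM (Q := Q) e) (rv Q) α hE hα
  -- `s` fixes all the classes
  have hfix : ∀ n, ∀ f ∈ R n, Fixes (LinearMap.mulLeft ℂ s) f := by
    by_cases hcase : ∃ x : W Q, rv Q x = -x ∧
        (Module.finrank ℂ T % 4 = 3 → x ∈ Lev (MM (Q := Q) e) (Module.finrank ℂ T - 1)) ∧ x ∉ LieR R
    · have hlie := lieR_eq hLIE hLNK2 hR hd he hE hcase
      have hlev : ∀ x, x ∈ Lev (MM (Q := Q) e) 2 ↔ α x ∈ Lev (MM (Q := Q) e) 2 := by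
        intro x
        rw [← hlie, ← hlie]
        exact LieR_alpha hJ hα hJα x
      obtain ⟨t, ht⟩ := spin_of hVEC hLNK3 hd h5 he hE hα hlev hs hs' hsM
      exact fun n f hf => (hR.1 n f hf).1 s t ht
    · push Not at hcase
      have h8 : Module.finrank ℂ T % 8 = 3 ∨ Module.finrank ℂ T % 8 = 5 := by
        rcases hX with h | ⟨n, f, x, hf, ⟨hx1, hx2⟩, hx3⟩
        · exact h
        · exfalso
          apply hx3
          have h1 : rv Q x = -x := by
            apply Subtype.ext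
            rw [rv_coe, hx1, NegMemClass.coe_neg]
          refine hcase x h1 ?_ n f hf
          intro h
          obtain ⟨v, z, hz, hx⟩ := hx2 h
          exact (hLNK3 Q _ e hd he).2 x v z hz hx
      by_cases hall : ∀ x : W Q, rv Q x = -x → x ∈ LieR R
      · intro n f hf
        exact hLEF (MM (Q := Q) e) (rv Q) n f s hE h8 (fun x hx => hall x hx n f hf) hs
      · push Not at hall
        have h3 : Module.finrank ℂ T % 4 = 3 := by
          rcases h8 with h | h
          · omega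
          · exfalso
            obtain ⟨x, hx, hxn⟩ := hall
            exact hxn (hcase x hx (fun h' => absurd h' (by omega)))
        have hL2 : ∀ K : Finset (Fin (Module.finrank ℂ T)), K.card = 2 →
            MM (Q := Q) e K ∈ LieR R := by
          intro K hK n f hf
          obtain ⟨Y, hY⟩ := (hLNK2 Q _ e hd he).2 K hK
          exact (hR.1 n f hf).2 _ Y hY
        have hL : ∀ x, x ∈ LieR R ↔ x ∈ Lev (MM (Q := Q) e) 2 ⊔
            Lev (MM (Q := Q) e) (Module.finrank ℂ T - 1) := by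
          intro x
          constructor
          · exact hLIE2 (MM (Q := Q) e) (rv Q) (LieR R) hE hL2
              (fun x hx y hy => LieR_bracket hx hy) (fun x hx => LieR_skew hR hx) hall x
          · intro h
            refine (sup_le ?_ ?_ : Lev (MM (Q := Q) e) 2 ⊔
              Lev (MM (Q := Q) e) (Module.finrank ℂ T - 1) ≤ LieR R) h
            · refine Submodule.span_le.mpr ?_
              rintro z ⟨K, hK, rfl⟩
              exact hL2 K hK
            · refine Submodule.span_le.mpr ?_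
              rintro z ⟨K, hK, rfl⟩
              have hKe : Even K.card := by
                rw [hK]
                obtain ⟨k, hk⟩ := hd
                exact ⟨k, by omega⟩
              refine hcase _ ?_ (fun _ => Submodule.subset_span ⟨K, hK, rfl⟩)
              rw [hE.st_M K hKe, Odd.neg_one_pow, neg_one_smul]
              rw [hK, Nat.odd_iff]
              omega
        exact mid_fix hTT hVV hFINM hDEC hLNK3 hR hd h5 (by omega) h3 he hE hα
          (LieR_alpha hJ hα hJα) hL hs hs' hsM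
  have S := toSys hR hE htr (fun K hK => (hLNK2 Q _ e hd he).1 K hK) hJ hα hyy' hy'y hJα hs hs'
    hsM hfix
  exact S.main hTR hAVG hHER hTWO hKPOS hPI hPAIR hFIN hψ hψa hb hbb hW

end Pool.Agent.K1H14.SD
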