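import Pool.Agent.K1H14.SD.Defs

/-!
# Systems of real spaces of classes
-/

namespace Pool.Agent.K1H14.SD

open Pool.Agent.K1H14.KS CliffordAlgebra

universe u

variable {T : Type u} [AddCommGroup T] [Module ℂ T]

/-- The quadratic space `T` is nondegenerate. -/
def Nondeg (Q : QuadraticForm ℂ T) : Prop :=
  ∀ t : T, (∀ s : T, QuadraticMap.polar Q s t = 0) → t = 0

/-- A real space of `n`-linear forms on `W Q`, for all `n` (the real spans of the algebraic classes
modulo numerical equivalence). -/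
def ClassSys (Q : QuadraticForm ℂ T) : Type u := ∀ n : ℕ, Submodule ℝ (WForm Q n)

/-- `f` is in the space of `n`-linear forms given by `R`. -/
def Has {Q : QuadraticForm ℂ T} (R : ClassSys Q) {n : ℕ} (f : WForm Q n) : Prop := f ∈ R n

/-- They form real structures (of the complex spaces they span). -/
def IsRealSys {Q : QuadraticForm ℂ T} (R : ClassSys Q) : Prop :=
  ∀ (n : ℕ) (f : WForm Q n), Has R f → Has R (Complex.I • f) → f = 0

/-- The bilinear forms `μ(w* w')` (the classes of divisors and endomorphisms) are complex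
combinations of elements of the space `R 2`. -/
def HasDivisors {Q : QuadraticForm ℂ T} (R : ClassSys Q) : Prop :=
  ∀ μ : CliffordAlgebra Q →ₗ[ℂ] ℂ, ∃ f g : WForm Q 2, Has R f ∧ Has R g ∧
    ∀ v : Fin 2 → W Q, f v + Complex.I * g v =
      μ (reverse (v 0 : CliffordAlgebra Q) * (v 1 : CliffordAlgebra Q))

/-- The linear map `g` fixes all the classes. -/
def FixesAll {Q : QuadraticForm ℂ T} (R : ClassSys Q) (g : W Q ≃ₗ[ℂ] W Q) : Prop :=
  ∀ (m : ℕ) (f : WForm Q m), Has R f → Fixes (g : W Q →ₗ[ℂ] W Q) f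

/-- All the classes are real for the antilinear map `J`. -/
def RealForAll {Q : QuadraticForm ℂ T} (R : ClassSys Q) (J : W Q ≃ₛₗ[starRingEnd ℂ] W Q) : Prop :=
  ∀ (m : ℕ) (f : WForm Q m), Has R f → RealFor J f

/-- The classes are all the invariants of the group of the linear and antilinear automorphisms of
`W Q` which respect them (the category of numerical motives generated by `A` is semisimple and
Tannakian). -/
def IsTannakian {Q : QuadraticForm ℂ T} (R : ClassSys Q) : Prop :=
  ∀ (n : ℕ) (f : WForm Q n),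
    (∀ g : W Q ≃ₗ[ℂ] W Q, FixesAll R g → Fixes (g : W Q →ₗ[ℂ] W Q) f) →
    (∀ J : W Q ≃ₛₗ[starRingEnd ℂ] W Q, RealForAll R J → RealFor J f) → Has R f

/-- What is known about the real spans of the algebraic classes modulo numerical equivalence: they
are Tate classes, and the three properties above. -/
def IsMotivicSys {Q : QuadraticForm ℂ T} (R : ClassSys Q) : Prop :=
  (∀ (n : ℕ) (f : WForm Q n), Has R f → IsTate f) ∧ IsRealSys R ∧ HasDivisors R ∧ IsTannakian R

/-- Some class is not killed by some test element. -/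
def HasTestClass {Q : QuadraticForm ℂ T} (R : ClassSys Q) : Prop :=
  ∃ (n : ℕ) (f : WForm Q n) (x : W Q), Has R f ∧ IsTest x ∧ ¬ Kills (LinearMap.mulLeft ℂ x) f

/-- `ψ` is alternating and `b`, `b'` are dual bases for `ψ`. -/
def IsFrame {Q : QuadraticForm ℂ T} (ψ : WForm Q 2) {m : ℕ} (b b' : Fin m → W Q) : Prop :=
  (∀ w : W Q, ψ ![w, w] = 0) ∧ Submodule.span ℂ (Set.range b) = ⊤ ∧
    ∀ i j : Fin m, ψ ![b i, b' j] = if i = j then 1 else 0

/-- The square of every nonzero class in the `n`-linear forms is a positive real number. -/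
def IsPositive {Q : QuadraticForm ℂ T} (R : ClassSys Q) {m : ℕ} (b b' : Fin m → W Q) (n : ℕ) : Prop :=
  ∀ f : WForm Q n, Has R f → f ≠ 0 → ∃ r : ℝ, 0 < r ∧ square b b' f = r

theorem IsMotivicSys.isRealMotivic {Q : QuadraticForm ℂ T} {R : ClassSys Q} (h : IsMotivicSys R) :
    IsRealMotivic (Q := Q) R := by
  obtain ⟨h1, h2, h3, h4⟩ := h
  refine ⟨fun n f hf => h1 n f hf, fun n f hf hf' => h2 n f hf hf', ?_, ?_⟩
  · intro μ
    obtain ⟨f, g, hf, hg, h⟩ := h3 μ
    exact ⟨f, hf, g, hg, h⟩
  · intro n f hg hJ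
    exact h4 n f (fun g hg' => hg g hg') (fun J hJ' => hJ J hJ')

end Pool.Agent.K1H14.SD
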