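import Pool.Agent.K1H14.SD.Asm3

/-!
# Assembly: one exceptional class gives all Tate classes
-/

namespace Pool.Agent.K1H14.SD

open Pool.Agent.K1H14.KS CliffordAlgebra

open scoped symmDiff

universe u

variable {T : Type u} [AddCommGroup T] [Module ℂ T] {Q : QuadraticForm ℂ T}
  {A : ∀ n : ℕ, Submodule ℂ (WForm Q n)}

/-- the Lie algebra of all elements which kill the classes -/
def LieC (A : ∀ n : ℕ, Submodule ℂ (WForm Q n)) : Submodule ℂ (W Q) where
  carrier := {x | ∀ n, ∀ f ∈ A n, Kills (LinearMap.mulLeft ℂ x) f}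
  add_mem' := by
    intro x x' hx hx' n f hf
    have : LinearMap.mulLeft ℂ (x + x') = LinearMap.mulLeft ℂ x + LinearMap.mulLeft ℂ x' := by
      ext w; simp [add_mul]
    rw [this]
    exact (hx n f hf).add (hx' n f hf)
  zero_mem' := by
    intro n f hf v
    refine Finset.sum_eq_zero (fun i _ => ?_)
    rw [LinearMap.mulLeft_apply, zero_mul]
    exact f.map_update_zero v i
  smul_mem' := by
    intro a x hx n f hf
    have : LinearMap.mulLeft ℂ (a • x) = a • LinearMap.mulLeft ℂ x := by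
      ext w; simp
    rw [this]
    exact (hx n f hf).smul a

lemma LieC_bracket {x x' : W Q} (hx : x ∈ LieC A) (hx' : x' ∈ LieC A) :
    x * x' - x' * x ∈ LieC A := by
  intro n f hf
  have : LinearMap.mulLeft ℂ (x * x' - x' * x) =
      LinearMap.mulLeft ℂ x ∘ₗ LinearMap.mulLeft ℂ x' -
        LinearMap.mulLeft ℂ x' ∘ₗ LinearMap.mulLeft ℂ x := by
    ext w; simp [sub_mul, mul_assoc]
  rw [this]
  exact (hx n f hf).bracket (hx' n f hf)

lemma LieC_skew (hA : IsMotivicW A) {x : W Q} (hx : x ∈ LieC A) : rv Q x = -x := by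
  apply Subtype.ext
  rw [rv_coe, NegMemClass.coe_neg]
  apply eq_neg_of_add_eq_zero_left
  rw [← Module.forall_dual_apply_eq_zero_iff ℂ]
  intro μ
  obtain ⟨f, hf, h⟩ := hA.2.1 μ
  have h1 := hx 2 f hf ![1, 1]
  rw [Fin.sum_univ_two] at h1
  have e0 : Function.update ![(1 : W Q), 1] 0 (LinearMap.mulLeft ℂ x (![1, 1] 0)) = ![x, 1] := by
    ext i; fin_cases i <;> simp
  have e1 : Function.update ![(1 : W Q), 1] 1 (LinearMap.mulLeft ℂ x (![1, 1] 1)) = ![1, x] := by
    ext i; fin_cases i <;> simp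
  rw [e0, e1, h, h] at h1
  simp only [Matrix.cons_val_zero, Matrix.cons_val_one, OneMemClass.coe_one, mul_one,
    reverse.map_one, one_mul] at h1
  rw [map_add]
  exact h1

/-- **one exceptional class gives all Tate classes** -/
theorem tate_main (hTR : S_TR.{u}) (hLIE : S_LIE.{u}) (hVEC : S_VEC.{u})
    (hLNK1 : S_LNK1.{u}) (hLNK2 : S_LNK2.{u}) (hLNK3 : S_LNK3.{u})
    (hQ : ∀ t : T, (∀ s : T, QuadraticMap.polar Q s t = 0) → t = 0)
    (hd : Odd (Module.finrank ℂ T)) (h5 : 5 ≤ Module.finrank ℂ T) (hA : IsMotivicW A)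
    (hX : ∃ (n : ℕ) (f : WForm Q n) (x : W Q), f ∈ A n ∧ IsTest x ∧
      ¬ Kills (LinearMap.mulLeft ℂ x) f) :
    ∀ (n : ℕ) (f : WForm Q n), IsTate f → f ∈ A n := by
  have hfdT : FiniteDimensional ℂ T := FiniteDimensional.of_finrank_pos (by omega)
  obtain ⟨e, he⟩ := exists_onb (Q := Q) hQ
  have hE := hLNK1 Q _ e hd he
  obtain ⟨hfdW, -⟩ := hTR _ _ hE
  have hlie : ∀ x, x ∈ LieC A ↔ x ∈ Lev (MM (Q := Q) e) 2 := by
    have h2 : ∀ K : Finset (Fin (Module.finrank ℂ T)), K.card = 2 →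
        MM (Q := Q) e K ∈ LieC A := by
      intro K hK n f hf
      obtain ⟨Y, hY⟩ := (hLNK2 Q _ e hd he).2 K hK
      exact (hA.1 n f hf).2 _ Y hY
    intro x
    constructor
    · refine hLIE (MM (Q := Q) e) (rv Q) (LieC A) hE h2 (fun x hx y hy => LieC_bracket hx hy)
        (fun x hx => LieC_skew hA hx) ?_ x
      obtain ⟨n, f, x, hf, ⟨hx1, hx2⟩, hx3⟩ := hX
      refine ⟨x, ?_, ?_, fun h => hx3 (h n f hf)⟩
      · apply Subtype.ext
        rw [rv_coe, hx1, NegMemClass.coe_neg]
      · intro h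
        obtain ⟨v, z, hz, hx⟩ := hx2 h
        exact (hLNK3 Q _ e hd he).2 x v z hz hx
    · intro h
      refine Submodule.span_le.mpr ?_ h
      rintro z ⟨K, hK, rfl⟩
      exact h2 K hK
  intro n f hf
  apply hA.2.2
  intro g hg
  -- `g` is the left multiplication by `y`
  set y := g 1 with hy
  have key : ∀ w w' : W Q, rv Q (g w) * g w' = rv Q w * w' := by
    intro w w'
    apply Subtype.ext
    rw [← sub_eq_zero, ← Module.forall_dual_apply_eq_zero_iff ℂ]
    intro μ
    obtain ⟨f', hf', h⟩ := hA.2.1 μ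
    have h1 := hg 2 f' hf' ![w, w']
    rw [h, h] at h1
    rw [map_sub, sub_eq_zero]
    exact h1
  have hyy : rv Q y * y = 1 := by
    have := key 1 1
    rwa [rv_one, one_mul] at this
  have hyy' : y * rv Q y = 1 := inv_comm hyy
  have hgy : ∀ w, g w = y * w := by
    intro w
    have h1 := key 1 w
    rw [rv_one, one_mul] at h1
    calc g w = (y * rv Q y) * g w := by rw [hyy', one_mul]
      _ = y * (rv Q y * g w) := mul_assoc _ _ _
      _ = y * w := by rw [h1]
  have hgl : (g : W Q →ₗ[ℂ] W Q) = LinearMap.mulLeft ℂ y := by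
    ext w; simp [hgy]
  have hgs : ∀ w, g.symm w = rv Q y * w := by
    intro w
    rw [LinearEquiv.symm_apply_eq, hgy, ← mul_assoc, hyy', one_mul]
  have hgsl : (g.symm : W Q →ₗ[ℂ] W Q) = LinearMap.mulLeft ℂ (rv Q y) := by
    ext w; simp [hgs]
  -- `y` normalises the Lie algebra
  have hnorm : ∀ x, x ∈ LieC A → y * x * rv Q y ∈ LieC A := by
    intro x hx m f' hf'
    have h1 := (hx m f' hf').conj (hg m f' hf')
    have h2 : (g : W Q →ₗ[ℂ] W Q) ∘ₗ LinearMap.mulLeft ℂ x ∘ₗ (g.symm : W Q →ₗ[ℂ] W Q) =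
        LinearMap.mulLeft ℂ (y * x * rv Q y) := by
      rw [hgl, hgsl]
      ext w; simp [mul_assoc]
    rwa [h2] at h1
  have hg' : ∀ m, ∀ f' ∈ A m, Fixes (g.symm : W Q →ₗ[ℂ] W Q) f' := fun m f' hf' =>
    (hg m f' hf').symm
  have hnorm' : ∀ x, y * x * rv Q y ∈ LieC A → x ∈ LieC A := by
    intro x hx m f' hf'
    have h1 := (hx m f' hf').conj (g := g.symm) (hg' m f' hf')
    have h2 : (g.symm : W Q →ₗ[ℂ] W Q) ∘ₗ LinearMap.mulLeft ℂ (y * x * rv Q y) ∘ₗ
        (g.symm.symm : W Q →ₗ[ℂ] W Q) = LinearMap.mulLeft ℂ x := by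
      rw [LinearEquiv.symm_symm, hgl, hgsl]
      apply LinearMap.ext
      intro w
      show rv Q y * (y * x * rv Q y * (y * w)) = x * w
      calc rv Q y * (y * x * rv Q y * (y * w)) = (rv Q y * y) * x * (rv Q y * y) * w := by
            simp only [mul_assoc]
        _ = x * w := by rw [hyy, one_mul, mul_one]
    rwa [h2] at h1
  have hspin : ∃ t : T →ₗ[ℂ] T, IsSpinPair y t := by
    apply (hLNK3 Q _ e hd he).1 y hyy
    refine hVEC (MM (Q := Q) e) (rv Q) (fun x => y * x * rv Q y) (RingEquiv.refl ℂ) hE h5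
      (fun x x' => by simp only [mul_add, add_mul]) ?_ ?_ (fun a x => ?_) ?_ ?_
    · intro x x'
      show y * (x * x') * rv Q y = y * x * rv Q y * (y * x' * rv Q y)
      calc y * (x * x') * rv Q y = y * x * (rv Q y * y) * x' * rv Q y := by
            rw [hyy, mul_one]; simp only [mul_assoc]
        _ = _ := by simp only [mul_assoc]
    · show y * 1 * rv Q y = 1
      rw [mul_one, hyy']
    · show y * (a • x) * rv Q y = a • (y * x * rv Q y)
      rw [mul_smul_comm, smul_mul_assoc]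
    · constructor
      · intro x x' h
        have h' : y * x * rv Q y = y * x' * rv Q y := h
        calc x = (rv Q y * y) * x * (rv Q y * y) := by rw [hyy, one_mul, mul_one]
          _ = rv Q y * (y * x * rv Q y) * y := by simp only [mul_assoc]
          _ = rv Q y * (y * x' * rv Q y) * y := by rw [h']
          _ = (rv Q y * y) * x' * (rv Q y * y) := by simp only [mul_assoc]
          _ = x' := by rw [hyy, one_mul, mul_one]
      · intro x
        refine ⟨rv Q y * x * y, ?_⟩
        show y * (rv Q y * x * y) * rv Q y = x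
        calc y * (rv Q y * x * y) * rv Q y = (y * rv Q y) * x * (y * rv Q y) := by
              simp only [mul_assoc]
          _ = x := by rw [hyy', one_mul, mul_one]
    · intro x
      rw [← hlie, ← hlie]
      exact ⟨hnorm x, hnorm' x⟩
  obtain ⟨t, ht⟩ := hspin
  rw [hgl]
  exact hf.1 y t ht

end Pool.Agent.K1H14.SD
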