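import Pool.Agent.K1H59.SD.TR
import Pool.Agent.K1H85.SD.Avg
import Pool.Agent.K1H39.SD.Her
import Pool.Agent.K1H73.SD.Int
import Pool.Agent.K1H24.SD.Sta
import Pool.Agent.K1H61.SD.Two
import Pool.Agent.K1H75.SD.Kpos
import Pool.Agent.K1H61.SD.Pi
import Pool.Agent.K1H83.SD.Pair
import Pool.Agent.K1H21.SD.FIN
import Pool.Agent.K1H42.SD.Span
import Pool.Agent.K1H25.SD.Swap
import Pool.Agent.K1H58.SD.Comb
import Pool.Agent.K1H59.SD.LIE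
import Pool.Agent.K1H25.SD.Vec
import Pool.Agent.K1H94.SD.Lnk1
import Pool.Agent.K1H31.SD.Lnk2
import Pool.Agent.K1H96.SD.Lnk3
import Pool.Agent.K1H65.SD.Sim
import Pool.Agent.K1H13.SD.Inv
import Pool.Agent.K1H49.SD.Sgn
import Pool.Agent.K1H77.SD.Trv
import Pool.Agent.K1H25.SD.Nil
import Pool.Agent.K1H97.SD.Lef
import Pool.Agent.K1H14.SD.Asm3
import Pool.Agent.K1H14.SD.Tate

/-!
# All pieces together
-/

namespace Pool.Agent.K1H14.SD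

universe u

open Pool.Agent.K1H14.KS CliffordAlgebra

theorem p_AVG : S_AVG.{u} := @Pool.Agent.K1H85.SD.t_AVG
theorem p_TR : S_TR.{u} := @Pool.Agent.K1H59.SD.t_TR
theorem p_PRM : S_PRM.{u} := Pool.Agent.K1H85.SD.t_PRM p_TR p_AVG
theorem p_HER : S_HER.{u} := Pool.Agent.K1H39.SD.t_HER p_AVG
theorem p_INT : S_INT.{u} := Pool.Agent.K1H73.SD.t_INT p_TR p_AVG p_PRM
theorem p_STA : S_STA.{u} := Pool.Agent.K1H24.SD.t_STA p_TR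
theorem p_TWO : S_TWO.{u} := Pool.Agent.K1H61.SD.t_TWO p_AVG
theorem p_KPOS : S_KPOS.{u} := Pool.Agent.K1H75.SD.t_KPOS p_AVG p_PRM p_HER
theorem p_PI : S_PI.{u} := Pool.Agent.K1H61.SD.t_PI p_HER
theorem p_PAIR : S_PAIR.{u} := Pool.Agent.K1H83.SD.t_PAIR p_AVG
theorem p_FIN : S_FIN.{u} := @Pool.Agent.K1H21.SD.t_FIN
theorem p_SPAN : S_SPAN.{u} := @Pool.Agent.K1H42.SD.t_SPAN
theorem p_SWAP : S_SWAP.{u} := @Pool.Agent.K1H25.SD.t_SWAP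
theorem p_LIE : S_LIE.{u} := Pool.Agent.K1H59.SD.t_LIE p_SPAN Pool.Agent.K1H58.SD.t_COMB
theorem p_VEC : S_VEC.{u} := Pool.Agent.K1H25.SD.t_VEC p_SPAN p_SWAP
theorem p_LNK1 : S_LNK1.{u} := @Pool.Agent.K1H94.SD.t_LNK1
theorem p_LNK2 : S_LNK2.{u} := @Pool.Agent.K1H31.SD.t_LNK2
theorem p_LNK3 : S_LNK3.{u} := @Pool.Agent.K1H96.SD.t_LNK3
theorem p_LEF : S_LEF.{u} := Pool.Agent.K1H97.SD.t_LEF @Pool.Agent.K1H65.SD.t_SIM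
  Pool.Agent.K1H13.SD.t_INV @Pool.Agent.K1H49.SD.t_SGN Pool.Agent.K1H77.SD.t_TRV
  @Pool.Agent.K1H25.SD.t_NIL

variable {T : Type u} [AddCommGroup T] [Module ℂ T] {Q : QuadraticForm ℂ T}

theorem hodge_final {R : ∀ n : ℕ, Submodule ℝ (WForm Q n)}
    (hQ : ∀ t : T, (∀ s : T, QuadraticMap.polar Q s t = 0) → t = 0)
    (hd : Odd (Module.finrank ℂ T)) (h5 : 5 ≤ Module.finrank ℂ T)
    (hR : IsRealMotivic R)
    (hX : Module.finrank ℂ T % 8 = 5 ∨ ∃ (n : ℕ) (f : WForm Q n) (x : W Q), f ∈ R n ∧ IsTest x ∧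
      ¬ Kills (LinearMap.mulLeft ℂ x) f)
    {ψ : WForm Q 2} (hψ : ψ ∈ R 2) (hψa : ∀ w, ψ ![w, w] = 0)
    {m : ℕ} {b b' : Fin m → W Q} (hb : Submodule.span ℂ (Set.range b) = ⊤)
    (hbb : ∀ i j, ψ ![b i, b' j] = if i = j then 1 else 0)
    (hW : ∀ f ∈ R 2, f ≠ 0 → Pos (square b b' f)) :
    ∀ n, ∀ f ∈ R n, f ≠ 0 → Pos (square b b' f) :=
  hodge_main p_TR p_AVG p_HER p_TWO p_KPOS p_PI p_PAIR p_FIN p_INT p_STA p_LIE p_VEC p_LNK1 p_LNK2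
    p_LNK3 p_LEF hQ hd h5 hR hX hψ hψa hb hbb hW

theorem tate_final {A : ∀ n : ℕ, Submodule ℂ (WForm Q n)}
    (hQ : ∀ t : T, (∀ s : T, QuadraticMap.polar Q s t = 0) → t = 0)
    (hd : Odd (Module.finrank ℂ T)) (h5 : 5 ≤ Module.finrank ℂ T) (hA : IsMotivicW A)
    (hX : ∃ (n : ℕ) (f : WForm Q n) (x : W Q), f ∈ A n ∧ IsTest x ∧
      ¬ Kills (LinearMap.mulLeft ℂ x) f) :
    ∀ (n : ℕ) (f : WForm Q n), IsTate f → f ∈ A n :=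
  tate_main p_TR p_LIE p_VEC p_LNK1 p_LNK2 p_LNK3 hQ hd h5 hA hX

end Pool.Agent.K1H14.SD
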