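import Pool.Agent.K1H14.SD.Final
import Pool.Agent.K1H14.SD.Asm4
import Pool.Agent.K1H33.SD.Cmb2
import Pool.Agent.K1H29.SD.Lie2
import Pool.Agent.K1H36.SD.Dec
import Pool.Agent.K1H66.SD.Iot
import Pool.Agent.K1H8.SD.TT
import Pool.Agent.K1H78.SD.VV
import Pool.Agent.K1H3.SD.FinM

/-!
# All pieces together, with the case `so(d+1)`
-/

namespace Pool.Agent.K1H14.SD

universe u

open Pool.Agent.K1H14.KS CliffordAlgebra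

theorem p_LIE2 : S_LIE2.{u} := Pool.Agent.K1H29.SD.t_LIE2 Pool.Agent.K1H33.SD.t_CMB2
theorem p_IOT : S_IOT.{u} := @Pool.Agent.K1H66.SD.t_IOT
theorem p_TT (h : S_CLU.{u}) : S_TT.{u} := Pool.Agent.K1H8.SD.t_TT p_IOT h

variable {T : Type u} [AddCommGroup T] [Module ℂ T] {Q : QuadraticForm ℂ T}

theorem hodge_final2 (hCLU : S_CLU.{u}) {R : ∀ n : ℕ, Submodule ℝ (WForm Q n)}
    (hQ : ∀ t : T, (∀ s : T, QuadraticMap.polar Q s t = 0) → t = 0)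
    (hd : Odd (Module.finrank ℂ T)) (h5 : 5 ≤ Module.finrank ℂ T)
    (hR : IsRealMotivic R)
    (hX : (Module.finrank ℂ T % 8 = 3 ∨ Module.finrank ℂ T % 8 = 5) ∨
      ∃ (n : ℕ) (f : WForm Q n) (x : W Q), f ∈ R n ∧ IsTest x ∧
      ¬ Kills (LinearMap.mulLeft ℂ x) f)
    {ψ : WForm Q 2} (hψ : ψ ∈ R 2) (hψa : ∀ w, ψ ![w, w] = 0)
    {m : ℕ} {b b' : Fin m → W Q} (hb : Submodule.span ℂ (Set.range b) = ⊤)
    (hbb : ∀ i j, ψ ![b i, b' j] = if i = j then 1 else 0)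
    (hW : ∀ f ∈ R 2, f ≠ 0 → Pos (square b b' f)) :
    ∀ n, ∀ f ∈ R n, f ≠ 0 → Pos (square b b' f) :=
  hodge_main2 p_TR p_AVG p_HER p_TWO p_KPOS p_PI p_PAIR p_FIN p_INT p_STA p_LIE p_VEC p_LNK1 p_LNK2
    p_LNK3 p_LEF p_LIE2 (p_TT hCLU) @Pool.Agent.K1H78.SD.t_VV @Pool.Agent.K1H3.SD.t_FINM
    @Pool.Agent.K1H36.SD.t_DEC hQ hd h5 hR hX hψ hψa hb hbb hW

end Pool.Agent.K1H14.SD
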