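import Pool.Agent.K1H14.KS.Final

/-!
# Project SD: interface (statements of the pieces)

`A` is (abstractly) the even Clifford algebra of a complex quadratic space of odd dimension `d`,
`M K` (for `K ⊆ {1..d}` of even cardinality) the product of the `e i`, `i ∈ K` (`e i` orthonormal),
`st` the canonical involution.  Values of `M` at odd sets are irrelevant.
-/

namespace Pool.Agent.K1H14.SD

open Pool.Agent.K1H14.KS CliffordAlgebra

open scoped symmDiff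

universe u

/-- the even Clifford algebra of a quadratic space of odd dimension, by its monomials -/
structure EvenCl {A : Type u} [Ring A] [Algebra ℂ A] {d : ℕ} (M : Finset (Fin d) → A)
    (st : A →ₗ[ℂ] A) : Prop where
  odd : Odd d
  ne : (1 : A) ≠ 0
  one : M ∅ = 1
  mul : ∀ K L : Finset (Fin d), Even K.card → Even L.card →
    ∃ ε : ℂ, (ε = 1 ∨ ε = -1) ∧ M K * M L = ε • M (K ∆ L)
  comm : ∀ K L : Finset (Fin d), Even K.card → Even L.card →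
    M K * M L = (-1 : ℂ) ^ (K ∩ L).card • (M L * M K)
  st_M : ∀ K : Finset (Fin d), Even K.card → st (M K) = (-1 : ℂ) ^ (K.card / 2) • M K
  st_inv : ∀ K : Finset (Fin d), Even K.card → st (M K) * M K = 1
  st_mul : ∀ x y : A, st (x * y) = st y * st x
  st_st : ∀ x : A, st (st x) = x
  span : ∀ x : A, x ∈ Submodule.span ℂ {x | ∃ K : Finset (Fin d), Even K.card ∧ x = M K}

/-- the normalised trace -/
def IsTr {A : Type u} [Ring A] [Algebra ℂ A] {d : ℕ} (M : Finset (Fin d) → A)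
    (tr : A →ₗ[ℂ] ℂ) : Prop :=
  (∀ K : Finset (Fin d), Even K.card → tr (M K) = if K = ∅ then 1 else 0) ∧
    ∀ x y, tr (x * y) = tr (y * x)

/-- the level `k` -/
def Lev {A : Type u} [Ring A] [Algebra ℂ A] {d : ℕ} (M : Finset (Fin d) → A) (k : ℕ) :
    Submodule ℂ A := Submodule.span ℂ {x | ∃ K : Finset (Fin d), K.card = k ∧ x = M K}

/-- the set of the even subsets -/
def evs (d : ℕ) : Finset (Finset (Fin d)) := Finset.univ.filter fun K => Even K.card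

/-- an antilinear automorphism of the ring with involution -/
structure AntiAut {A : Type u} [Ring A] [Algebra ℂ A] (st : A →ₗ[ℂ] A) (α : A → A) : Prop where
  add : ∀ x y, α (x + y) = α x + α y
  smul : ∀ (c : ℂ) x, α (c • x) = (starRingEnd ℂ) c • α x
  mul : ∀ x y, α (x * y) = α x * α y
  one : α 1 = 1
  bij : Function.Bijective α
  st : ∀ x, α (st x) = st (α x)

/-- the complex conjugation for which the monomials are real -/
def IsCj {A : Type u} [Ring A] [Algebra ℂ A] {d : ℕ} (M : Finset (Fin d) → A) (st : A →ₗ[ℂ] A)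
    (c : A → A) : Prop := AntiAut st c ∧ ∀ K : Finset (Fin d), Even K.card → c (M K) = M K

/-- a positive real number -/
def Pos (z : ℂ) : Prop := ∃ r : ℝ, 0 < r ∧ z = r

/-! ### pieces: the algebra `A` -/

def S_TR : Prop := ∀ {A : Type u} [Ring A] [Algebra ℂ A] {d : ℕ} (M : Finset (Fin d) → A)
  (st : A →ₗ[ℂ] A), EvenCl M st → FiniteDimensional ℂ A ∧ ∃ tr : A →ₗ[ℂ] ℂ, IsTr M tr

def S_AVG : Prop := ∀ {A : Type u} [Ring A] [Algebra ℂ A] {d : ℕ} (M : Finset (Fin d) → A)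
  (st : A →ₗ[ℂ] A) (tr : A →ₗ[ℂ] ℂ), EvenCl M st → IsTr M tr →
  (∀ x : A, ∑ K ∈ evs d, M K * x * st (M K) = ((2 : ℂ) ^ (d - 1) * tr x) • (1 : A)) ∧
    ∀ x : A, x = ∑ K ∈ evs d, tr (st (M K) * x) • M K

def S_PRM : Prop := ∀ {A : Type u} [Ring A] [Algebra ℂ A] {d : ℕ} (M : Finset (Fin d) → A)
  (st : A →ₗ[ℂ] A), EvenCl M st → ∀ a b : A,
  (∀ K : Finset (Fin d), Even K.card → a * M K * b = 0) → a = 0 ∨ b = 0

def S_HER : Prop := ∀ {A : Type u} [Ring A] [Algebra ℂ A] {d : ℕ} (M : Finset (Fin d) → A)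
  (st : A →ₗ[ℂ] A) (tr : A →ₗ[ℂ] ℂ) (c : A → A), EvenCl M st → IsTr M tr → IsCj M st c →
  (∀ x, c (c x) = x) ∧ (∀ x, tr (c x) = (starRingEnd ℂ) (tr x)) ∧ (∀ x, tr (st x) = tr x) ∧
    ∀ x, x ≠ 0 → Pos (tr (st x * c x))

def S_INT : Prop := ∀ {A : Type u} [Ring A] [Algebra ℂ A] {d : ℕ} (M : Finset (Fin d) → A)
  (st : A →ₗ[ℂ] A) (α : A → A), EvenCl M st → AntiAut st α →
  ∃ s : A, st s * s = 1 ∧ s * st s = 1 ∧ ∀ K : Finset (Fin d), Even K.card →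
    α (M K) * s = s * M K

def S_STA : Prop := ∀ {A : Type u} [Ring A] [Algebra ℂ A] {d : ℕ} (M : Finset (Fin d) → A)
  (st : A →ₗ[ℂ] A) (J : A → A), EvenCl M st → (∀ x y, J (x + y) = J x + J y) →
  (∀ (c : ℂ) x, J (c • x) = (starRingEnd ℂ) c • J x) → Function.Bijective J →
  (∀ μ : A →ₗ[ℂ] ℂ, ∃ μ' : A →ₗ[ℂ] ℂ, ∀ w w' : A,
    (starRingEnd ℂ) (μ (st (J w) * J w')) = μ' (st w * w')) →
  ∃ (α : A → A) (y y' : A), AntiAut st α ∧ y * y' = 1 ∧ y' * y = 1 ∧ ∀ w, J w = α w * y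

def S_TWO : Prop := ∀ {A : Type u} [Ring A] [Algebra ℂ A] {d : ℕ} (M : Finset (Fin d) → A)
  (st : A →ₗ[ℂ] A) (tr : A →ₗ[ℂ] ℂ), EvenCl M st → IsTr M tr →
  ∀ f : MultilinearMap ℂ (fun _ : Fin 2 => A) ℂ,
  (∀ K : Finset (Fin d), Even K.card → Fixes (LinearMap.mulLeft ℂ (M K)) f) →
  ∃ u : A, ∀ v : Fin 2 → A, f v = tr (st (v 0) * v 1 * u)

/-! ### pieces: positivity -/

def S_KPOS : Prop := ∀ {A : Type u} [Ring A] [Algebra ℂ A] {d : ℕ} (M : Finset (Fin d) → A)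
  (st : A →ₗ[ℂ] A) (tr : A →ₗ[ℂ] ℂ) (c : A → A) (k k' : A), EvenCl M st → IsTr M tr →
  IsCj M st c → k * k' = 1 → k' * k = 1 →
  (∀ u, u ≠ 0 → Pos (tr (u * k' * st (c u) * st k'))) →
  ∃ θ : ℂ, ∀ v, v ≠ 0 → Pos (θ * tr (st v * c v * k))

def S_PI : Prop := ∀ {A : Type u} [Ring A] [Algebra ℂ A] {d : ℕ} (M : Finset (Fin d) → A)
  (st : A →ₗ[ℂ] A) (tr : A →ₗ[ℂ] ℂ) (c : A → A) (y y' u₀ u₀' : A) (z : ℂ), EvenCl M st →
  IsTr M tr → IsCj M st c → y * y' = 1 → y' * y = 1 → u₀ * u₀' = 1 → u₀' * u₀ = 1 →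
  st u₀ = -u₀ → y * u₀ * st y = c u₀ → c y * y = z • (1 : A) → z * z = 1 →
  (∀ u, u ≠ 0 → y * u * st y = c u → Pos (tr (u * u₀' * st u * st u₀'))) →
  ∀ u, u ≠ 0 → Pos (tr (u * (u₀' * y') * st (c u) * st (u₀' * y')))

def S_PAIR : Prop := ∀ {A : Type u} [Ring A] [Algebra ℂ A] {d : ℕ} (M : Finset (Fin d) → A)
  (st : A →ₗ[ℂ] A) (tr : A →ₗ[ℂ] ℂ) (u₀ u₀' : A) (m : ℕ) (b b' : Fin m → A), EvenCl M st →
  IsTr M tr → u₀ * u₀' = 1 → u₀' * u₀ = 1 → Submodule.span ℂ (Set.range b) = ⊤ →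
  (∀ i j, tr (st (b i) * b' j * u₀) = if i = j then 1 else 0) → ∀ u : A,
  ∑ a : Fin 2 → Fin m, tr (st (b (a 0)) * b (a 1) * u) * tr (st (b' (a 0)) * b' (a 1) * u) =
    (2 : ℂ) ^ (d - 1) * tr (u * u₀' * st u * st u₀')

def S_FIN : Prop := ∀ {V : Type u} [AddCommGroup V] [Module ℂ V] [FiniteDimensional ℂ V]
  (J : V → V) (ψ : MultilinearMap ℂ (fun _ : Fin 2 => V) ℂ) (m : ℕ) (b b' : Fin m → V) (θ : ℂ)
  (n : ℕ) (f : MultilinearMap ℂ (fun _ : Fin n => V) ℂ),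
  (∀ x y, J (x + y) = J x + J y) → (∀ (c : ℂ) x, J (c • x) = (starRingEnd ℂ) c • J x) →
  Function.Bijective J → Submodule.span ℂ (Set.range b) = ⊤ →
  (∀ i j, ψ ![b i, b' j] = if i = j then 1 else 0) → (∀ v, v ≠ 0 → Pos (θ * ψ ![v, J v])) →
  (∀ v : Fin n → V, f (fun i => J (v i)) = (starRingEnd ℂ) (f v)) → f ≠ 0 →
  ∃ r : ℝ, 0 < r ∧
    ∑ a : Fin n → Fin m, f (fun i => b (a i)) * f (fun i => b' (a i)) = θ ^ n * (r : ℂ)

/-! ### pieces: subspaces stable under the spin Lie algebra -/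

def S_SPAN : Prop := ∀ {A : Type u} [Ring A] [Algebra ℂ A] {d : ℕ} (M : Finset (Fin d) → A)
  (st : A →ₗ[ℂ] A) (N : Submodule ℂ A), EvenCl M st →
  (∀ K : Finset (Fin d), K.card = 2 → ∀ x ∈ N, M K * x - x * M K ∈ N) →
  ∀ x ∈ N, x ∈ Submodule.span ℂ {x | ∃ K : Finset (Fin d), Even K.card ∧ M K ∈ N ∧ x = M K}

def S_SWAP : Prop := ∀ {A : Type u} [Ring A] [Algebra ℂ A] {d : ℕ} (M : Finset (Fin d) → A)
  (st : A →ₗ[ℂ] A) (N : Submodule ℂ A), EvenCl M st →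
  (∀ K : Finset (Fin d), K.card = 2 → ∀ x ∈ N, M K * x - x * M K ∈ N) →
  ∀ (K : Finset (Fin d)) (i j : Fin d), Even K.card → M K ∈ N → i ∈ K → j ∉ K →
    M (K ∆ {i, j}) ∈ N

def S_COMB : Prop := ∀ (d : ℕ) (P : Finset (Fin d) → Prop), Odd d →
  (∀ K : Finset (Fin d), K.card = 2 → P K) →
  (∀ K L : Finset (Fin d), P K → P L → Odd (K ∩ L).card → P (K ∆ L)) →
  (∀ K : Finset (Fin d), P K → K.card % 4 = 2) → (∃ K : Finset (Fin d), P K ∧ K.card ≠ 2) →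
  ∀ L : Finset (Fin d), L.card % 4 = 2 → (d % 4 = 3 → L.card = d - 1) → P L

def S_LIE : Prop := ∀ {A : Type u} [Ring A] [Algebra ℂ A] {d : ℕ} (M : Finset (Fin d) → A)
  (st : A →ₗ[ℂ] A) (N : Submodule ℂ A), EvenCl M st →
  (∀ K : Finset (Fin d), K.card = 2 → M K ∈ N) → (∀ x ∈ N, ∀ y ∈ N, x * y - y * x ∈ N) →
  (∀ x ∈ N, st x = -x) → (∃ x : A, st x = -x ∧ (d % 4 = 3 → x ∈ Lev M (d - 1)) ∧ x ∉ N) →
  ∀ x ∈ N, x ∈ Lev M 2

def S_VEC : Prop := ∀ {A : Type u} [Ring A] [Algebra ℂ A] {d : ℕ} (M : Finset (Fin d) → A)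
  (st : A →ₗ[ℂ] A) (ρ : A → A) (σ : ℂ ≃+* ℂ), EvenCl M st → 5 ≤ d →
  (∀ x y, ρ (x + y) = ρ x + ρ y) → (∀ x y, ρ (x * y) = ρ x * ρ y) → ρ 1 = 1 →
  (∀ (c : ℂ) x, ρ (c • x) = σ c • ρ x) → Function.Bijective ρ →
  (∀ x, x ∈ Lev M 2 ↔ ρ x ∈ Lev M 2) → ∀ x ∈ Lev M (d - 1), ρ x ∈ Lev M (d - 1)

/-! ### pieces: the Clifford algebra -/

section cl

variable {T : Type u} [AddCommGroup T] [Module ℂ T] {Q : QuadraticForm ℂ T}

/-- the canonical involution of the even Clifford algebra -/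
def rv (Q : QuadraticForm ℂ T) : W Q →ₗ[ℂ] W Q where
  toFun x := ⟨reverse (x : CliffordAlgebra Q), reverse_mem x⟩
  map_add' x y := Subtype.ext (by
    show reverse ((x : CliffordAlgebra Q) + (y : CliffordAlgebra Q)) = reverse (x : CliffordAlgebra Q) + reverse (y : CliffordAlgebra Q)
    rw [map_add])
  map_smul' c x := Subtype.ext (by
    show reverse (c • (x : CliffordAlgebra Q)) = c • reverse (x : CliffordAlgebra Q)
    rw [map_smul])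

/-- the product of the `b i`, `i ∈ K`, in increasing order (for `K` even; `0` for `K` odd) -/
noncomputable def MM {d : ℕ} (b : Module.Basis (Fin d) ℂ T) (K : Finset (Fin d)) : W Q :=
  if h : Even K.card then
    ⟨mono (fun i => ι Q (b i)) (K.sort (· ≤ ·)), by
      have h1 := mono_mem (Q := Q) b (K.sort (· ≤ ·))
      rw [Finset.length_sort] at h1
      have h2 : ((K.card : ℕ) : ZMod 2) = 0 := (ZMod.natCast_eq_zero_iff_even).mpr h
      rw [h2] at h1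
      exact h1⟩
  else 0

end cl

def S_LNK1 : Prop := ∀ {T : Type u} [AddCommGroup T] [Module ℂ T] (Q : QuadraticForm ℂ T) (d : ℕ)
  (b : Module.Basis (Fin d) ℂ T), Odd d → ONB Q b → EvenCl (MM (Q := Q) b) (rv Q)

def S_LNK2 : Prop := ∀ {T : Type u} [AddCommGroup T] [Module ℂ T] (Q : QuadraticForm ℂ T) (d : ℕ)
  (b : Module.Basis (Fin d) ℂ T), Odd d → ONB Q b →
  (∀ K : Finset (Fin d), Even K.card → ∃ t : T →ₗ[ℂ] T, IsSpinPair (MM (Q := Q) b K) t) ∧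
    ∀ K : Finset (Fin d), K.card = 2 → ∃ Y : T →ₗ[ℂ] T, IsLiePair (MM (Q := Q) b K) Y

def S_LNK3 : Prop := ∀ {T : Type u} [AddCommGroup T] [Module ℂ T] (Q : QuadraticForm ℂ T) (d : ℕ)
  (b : Module.Basis (Fin d) ℂ T), Odd d → ONB Q b →
  (∀ y : W Q, rv Q y * y = 1 → (∀ x ∈ Lev (MM (Q := Q) b) (d - 1),
      y * x * rv Q y ∈ Lev (MM (Q := Q) b) (d - 1)) → ∃ t : T →ₗ[ℂ] T, IsSpinPair y t) ∧
    ∀ (x : W Q) (v : T) (z : CliffordAlgebra Q), (∀ t, z * ι Q t = ι Q t * z) →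
      (x : CliffordAlgebra Q) = ι Q v * z → x ∈ Lev (MM (Q := Q) b) (d - 1)

end Pool.Agent.K1H14.SD
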