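import Pool.Agent.K1H14.SD.Stm
import Pool.Agent.K1H14.SD.Defs

/-!
# Project SD: interface, part 3 (existence of an exceptional Tate class)
-/

namespace Pool.Agent.K1H14.SD

open Pool.Agent.K1H14.KS CliffordAlgebra

universe u

def S_CONV : Prop := ∀ {T : Type u} [AddCommGroup T] [Module ℂ T] (Q : QuadraticForm ℂ T),
  (∀ t : T, (∀ s : T, QuadraticMap.polar Q s t = 0) → t = 0) → Odd (Module.finrank ℂ T) →
  7 ≤ Module.finrank ℂ T →
  ∃ (f : WForm Q 4) (x : W Q), IsTate f ∧ IsTest x ∧ ¬ Kills (LinearMap.mulLeft ℂ x) f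

end Pool.Agent.K1H14.SD
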